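import Pool.Agent.H723R3.Beur.Defs

set_option autoImplicit false
set_option linter.unusedSectionVars false

namespace Beur

open scoped BoundedContinuousFunction Cardinal Topology

universe u

variable {G : Type u} [Group G] [TopologicalSpace G] [DiscreteTopology G]

lemma L_act (K : Ker G) (g : G) (Ψ : StrongDual ℝ (G →ᵇ ℝ)) (F : G →ᵇ ℝ) :
    L K g (act K Ψ F) = act K Ψ (L K g F) := by
  ext h
  rw [L_apply, act_apply, act_apply, L_L, map_smul, smul_eq_mul]

lemma act_act (K : Ker G) (Φ Ψ : StrongDual ℝ (G →ᵇ ℝ)) (F : G →ᵇ ℝ) :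
    act K Φ (act K Ψ F) = act K (box K Φ Ψ) F := by
  ext g
  rw [act_apply, act_apply, L_act, box_apply]

lemma box_assoc (K : Ker G) (a b c : StrongDual ℝ (G →ᵇ ℝ)) :
    box K (box K a b) c = box K a (box K b c) := by
  ext F
  rw [box_apply, box_apply, box_apply, act_act]

lemma box_zero (K : Ker G) (a : StrongDual ℝ (G →ᵇ ℝ)) : box K a 0 = 0 := by
  ext F
  rw [box_apply]
  have : act K 0 F = 0 := by ext g; simp
  rw [this, map_zero]; rfl

lemma zero_box (K : Ker G) (a : StrongDual ℝ (G →ᵇ ℝ)) : box K 0 a = 0 := by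
  ext F; rfl

lemma box_smul (K : Ker G) (a b : StrongDual ℝ (G →ᵇ ℝ)) (c : ℝ) :
    box K a (c • b) = c • box K a b := by
  ext F
  rw [box_apply]
  have : act K (c • b) F = c • act K b F := by ext g; simp
  rw [this, map_smul]; rfl

lemma smul_box (K : Ker G) (a b : StrongDual ℝ (G →ᵇ ℝ)) (c : ℝ) :
    box K (c • a) b = c • box K a b := rfl

lemma box_add (K : Ker G) (a b c : StrongDual ℝ (G →ᵇ ℝ)) :
    box K a (b + c) = box K a b + box K a c := by
  ext F
  rw [box_apply]
  have : act K (b + c) F = act K b F + act K c F := by ext g; simp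
  rw [this, map_add]; rfl

lemma add_box (K : Ker G) (a b c : StrongDual ℝ (G →ᵇ ℝ)) :
    box K (a + b) c = box K a c + box K b c := rfl

/-- the constant function one -/
noncomputable def one' : G →ᵇ ℝ := mkB (fun _ => 1) 1 (by simp)

@[simp] lemma one'_apply (g : G) : (one' : G →ᵇ ℝ) g = 1 := rfl

lemma Pos.mono {e : StrongDual ℝ (G →ᵇ ℝ)} (he : Pos e) {F F' : G →ᵇ ℝ} (h : ∀ g, F g ≤ F' g) :
    e F ≤ e F' := by
  have := he (F' - F) (fun g => by simpa using h g)
  rw [map_sub] at this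
  linarith

lemma Pos.abs_le {e : StrongDual ℝ (G →ᵇ ℝ)} (he : Pos e) (F : G →ᵇ ℝ) :
    |e F| ≤ ‖F‖ * e one' := by
  have h1 : e F ≤ e (‖F‖ • one') := he.mono (fun g => by
    simp only [BoundedContinuousFunction.coe_smul, one'_apply, smul_eq_mul, mul_one]
    exact (le_abs_self _).trans (F.norm_coe_le_norm g))
  have h2 : e (-(‖F‖ • one')) ≤ e F := he.mono (fun g => by
    simp only [BoundedContinuousFunction.coe_neg, Pi.neg_apply, BoundedContinuousFunction.coe_smul,
      one'_apply, smul_eq_mul, mul_one]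
    have := (neg_abs_le (F g))
    have h3 := F.norm_coe_le_norm g
    rw [Real.norm_eq_abs] at h3
    linarith)
  rw [map_neg, map_smul, smul_eq_mul] at h2
  rw [map_smul, smul_eq_mul] at h1
  exact _root_.abs_le.2 ⟨h2, h1⟩

lemma Pos.norm_le {e : StrongDual ℝ (G →ᵇ ℝ)} (he : Pos e) : ‖e‖ ≤ e one' := by
  refine ContinuousLinearMap.opNorm_le_bound _ (he _ (fun g => by simp)) (fun F => ?_)
  rw [mul_comm]
  exact he.abs_le F

lemma Pos.one_pos {e : StrongDual ℝ (G →ᵇ ℝ)} (he : Pos e) (h0 : e ≠ 0) : 0 < e one' := by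
  rcases lt_or_eq_of_le (he one' (fun g => by simp)) with h | h
  · exact h
  · exfalso
    apply h0
    ext F
    have := he.abs_le F
    rw [← h, mul_zero] at this
    exact abs_nonpos_iff.1 this

/-- limits of bounded families of functionals along an ultrafilter -/
lemma exists_lim {ι : Type*} (U : Ultrafilter ι) (x : ι → StrongDual ℝ (G →ᵇ ℝ)) (C : ℝ)
    (hC : ∀ i, ‖x i‖ ≤ C) :
    ∃ t : StrongDual ℝ (G →ᵇ ℝ), ∀ F, Filter.Tendsto (fun i => x i F) U (𝓝 (t F)) := by
  have hC0 : ∀ F : G →ᵇ ℝ, ∀ i, x i F ∈ Metric.closedBall (0:ℝ) (C * ‖F‖) := by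
    intro F i
    rw [mem_closedBall_zero_iff]
    exact ((x i).le_opNorm F).trans (mul_le_mul_of_nonneg_right (hC i) (norm_nonneg _))
  have hlim : ∀ F : G →ᵇ ℝ, ∃ a ∈ Metric.closedBall (0:ℝ) (C * ‖F‖),
      Filter.Tendsto (fun i => x i F) U (𝓝 a) := by
    intro F
    have hc := (isCompact_closedBall (0:ℝ) (C * ‖F‖))
    obtain ⟨a, ha, hle⟩ := hc.ultrafilter_le_nhds (U.map (fun i => x i F)) (by
      rw [Filter.le_principal_iff]
      exact Filter.mem_map.2 (Filter.mem_of_superset Filter.univ_mem (fun i _ => hC0 F i)))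
    exact ⟨a, ha, hle⟩
  choose t ht hlt using hlim
  have hadd : ∀ F F', t (F + F') = t F + t F' := by
    intro F F'
    refine tendsto_nhds_unique (hlt (F + F')) ?_
    simpa using (hlt F).add (hlt F')
  have hsmul : ∀ (c : ℝ) F, t (c • F) = c * t F := by
    intro c F
    refine tendsto_nhds_unique (hlt (c • F)) ?_
    simpa using (hlt F).const_mul c
  refine ⟨LinearMap.mkContinuous ⟨⟨t, hadd⟩, hsmul⟩ C (fun F => ?_), hlt⟩
  have := ht F
  rw [mem_closedBall_zero_iff] at this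
  exact this

/-- evaluation functional of a finitely supported function -/
noncomputable def ev (a : G →₀ ℝ) : StrongDual ℝ (G →ᵇ ℝ) :=
  LinearMap.mkContinuous
    { toFun := fun F => a.sum (fun g c => c * F g)
      map_add' := by
        intro F F'
        simp only [Finsupp.sum, BoundedContinuousFunction.coe_add, Pi.add_apply, mul_add,
          Finset.sum_add_distrib]
      map_smul' := by
        intro c F
        simp only [Finsupp.sum, BoundedContinuousFunction.coe_smul, smul_eq_mul, RingHom.id_apply,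
          Finset.mul_sum]
        exact Finset.sum_congr rfl (fun g _ => by ring) }
    (a.sum (fun _ c => |c|)) (by
      intro F
      simp only [Finsupp.sum, LinearMap.coe_mk, AddHom.coe_mk]
      rw [Finset.sum_mul]
      refine (norm_sum_le _ _).trans (Finset.sum_le_sum (fun g _ => ?_))
      rw [norm_mul, Real.norm_eq_abs]
      exact mul_le_mul_of_nonneg_left (F.norm_coe_le_norm g) (abs_nonneg _))

lemma ev_apply (a : G →₀ ℝ) (F : G →ᵇ ℝ) : ev a F = a.sum (fun g c => c * F g) := rfl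

lemma ev_pos (a : G →₀ ℝ) (ha : ∀ g, 0 ≤ a g) : Pos (ev a) := by
  intro F hF
  rw [ev_apply]
  exact Finset.sum_nonneg (fun g _ => mul_nonneg (ha g) (hF g))

/-- `R a f = Σ a(h) L_h f` -/
noncomputable def R (K : Ker G) (a : G →₀ ℝ) (f : G →ᵇ ℝ) : G →ᵇ ℝ :=
  a.sum (fun g c => c • L K g f)

lemma R_add (K : Ker G) (a : G →₀ ℝ) (f f' : G →ᵇ ℝ) : R K a (f + f') = R K a f + R K a f' := by
  simp only [R, Finsupp.sum, map_add, smul_add, Finset.sum_add_distrib]

lemma R_smul (K : Ker G) (a : G →₀ ℝ) (c : ℝ) (f : G →ᵇ ℝ) : R K a (c • f) = c • R K a f := by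
  simp only [R, Finsupp.sum, map_smul, Finset.smul_sum]
  exact Finset.sum_congr rfl (fun g _ => smul_comm _ _ _)

lemma R_sub (K : Ker G) (a : G →₀ ℝ) (f f' : G →ᵇ ℝ) : R K a (f - f') = R K a f - R K a f' := by
  simp only [R, Finsupp.sum, map_sub, smul_sub, Finset.sum_sub_distrib]

lemma R_norm (K : Ker G) (a : G →₀ ℝ) (ha : ∀ g, 0 ≤ a g) (f : G →ᵇ ℝ) :
    ‖R K a f‖ ≤ ev a one' * ‖f‖ := by
  rw [R, Finsupp.sum, ev_apply, Finsupp.sum, Finset.sum_mul]
  refine (norm_sum_le _ _).trans (Finset.sum_le_sum (fun g _ => ?_))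
  rw [norm_smul, Real.norm_of_nonneg (ha g), one'_apply, mul_one]
  exact mul_le_mul_of_nonneg_left (L_norm K g f) (ha g)

lemma ev_act (K : Ker G) (a : G →₀ ℝ) (Ψ : StrongDual ℝ (G →ᵇ ℝ)) (f : G →ᵇ ℝ) :
    ev a (act K Ψ f) = Ψ (R K a f) := by
  rw [ev_apply, R, Finsupp.sum, Finsupp.sum, map_sum]
  exact Finset.sum_congr rfl (fun g _ => by rw [act_apply, map_smul, smul_eq_mul])

/-- `act e` fixed functions: `e (R a v) = ev a v` -/
lemma apply_R (K : Ker G) (a : G →₀ ℝ) (e : StrongDual ℝ (G →ᵇ ℝ)) (v : G →ᵇ ℝ)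
    (hv : act K e v = v) : e (R K a v) = ev a v := by
  rw [← ev_act, hv]

lemma act_R (K : Ker G) (a : G →₀ ℝ) (e : StrongDual ℝ (G →ᵇ ℝ)) (v : G →ᵇ ℝ) :
    act K e (R K a v) = R K a (act K e v) := by
  simp only [R, Finsupp.sum, map_sum, map_smul, L_act]

/-- convolution (twisted) product of finitely supported functions -/
noncomputable def conv (K : Ker G) (a b : G →₀ ℝ) : G →₀ ℝ :=
  a.sum (fun h c => b.sum (fun k d => Finsupp.single (h * k) (c * d * K.Om h k)))

lemma R_conv (K : Ker G) (a b : G →₀ ℝ) (f : G →ᵇ ℝ) :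
    R K (conv K a b) f = R K b (R K a f) := by
  have h1 : R K (conv K a b) f = a.sum (fun h c => b.sum (fun k d =>
      (c * d * K.Om h k) • L K (h * k) f)) := by
    rw [R, conv, Finsupp.sum_sum_index (h := fun g c => c • L K g f) (fun i => zero_smul ℝ _) (fun i b c => add_smul b c _)]
    refine Finset.sum_congr rfl (fun h _ => ?_)
    simp only []
    rw [Finsupp.sum_sum_index (h := fun g c => c • L K g f) (fun i => zero_smul ℝ _) (fun i b c => add_smul b c _)]
    refine Finset.sum_congr rfl (fun k _ => ?_)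
    simp only []
    rw [Finsupp.sum_single_index (h := fun g c => c • L K g f) (zero_smul ℝ _)]
  rw [h1, R, R, Finsupp.sum]
  simp only [Finsupp.sum, map_sum, map_smul, L_L, Finset.smul_sum]
  rw [Finset.sum_comm]
  refine Finset.sum_congr rfl (fun k _ => Finset.sum_congr rfl (fun h _ => ?_))
  rw [smul_smul, smul_smul]
  congr 1; ring

lemma ev_conv (K : Ker G) (a b : G →₀ ℝ) (f : G →ᵇ ℝ) :
    ev (conv K a b) f = a.sum (fun h c => c * ev b (L K h f)) := by
  have h1 : ev (conv K a b) f = a.sum (fun h c => b.sum (fun k d =>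
      (c * d * K.Om h k) * f (h * k))) := by
    rw [ev_apply, conv, Finsupp.sum_sum_index (h := fun g c => c * f g) (fun i => zero_mul _) (fun i b c => add_mul b c _)]
    refine Finset.sum_congr rfl (fun h _ => ?_)
    simp only []
    rw [Finsupp.sum_sum_index (h := fun g c => c * f g) (fun i => zero_mul _) (fun i b c => add_mul b c _)]
    refine Finset.sum_congr rfl (fun k _ => ?_)
    simp only []
    rw [Finsupp.sum_single_index (h := fun g c => c * f g) (zero_mul _)]
  rw [h1]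
  refine Finsupp.sum_congr (fun h _ => ?_)
  rw [ev_apply, Finsupp.mul_sum]
  refine Finsupp.sum_congr (fun k _ => ?_)
  rw [L_apply]; ring

lemma conv_nonneg (K : Ker G) (a b : G →₀ ℝ) (ha : ∀ g, 0 ≤ a g) (hb : ∀ g, 0 ≤ b g) (g : G) :
    0 ≤ conv K a b g := by
  rw [conv, Finsupp.sum, Finsupp.finsetSum_apply]
  refine Finset.sum_nonneg (fun h _ => ?_)
  rw [Finsupp.sum, Finsupp.finsetSum_apply]
  refine Finset.sum_nonneg (fun k _ => ?_)
  classical
  rw [Finsupp.single_apply]
  split_ifs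
  · exact mul_nonneg (mul_nonneg (ha _) (hb _)) (K.pos _ _).le
  · exact le_refl _

lemma conv_support (K : Ker G) (a b : G →₀ ℝ) {x : G} (hx : x ∈ (conv K a b).support) :
    ∃ h ∈ a.support, ∃ k ∈ b.support, x = h * k := by
  classical
  by_contra hcon
  push Not at hcon
  rw [Finsupp.mem_support_iff] at hx
  apply hx
  rw [conv, Finsupp.sum, Finsupp.finsetSum_apply]
  refine Finset.sum_eq_zero (fun h hh => ?_)
  rw [Finsupp.sum, Finsupp.finsetSum_apply]
  refine Finset.sum_eq_zero (fun k hk => ?_)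
  rw [Finsupp.single_apply, if_neg]
  intro he
  exact hcon h hh k hk he.symm

/-- TASK B3 (single step): given finite `F`, small `Q` and `ε`. -/
def TaskB3 : Prop := ∀ (G : Type u) [Group G] [TopologicalSpace G] [DiscreteTopology G]
  [Infinite G] (K : Ker G) (e : StrongDual ℝ (G →ᵇ ℝ)), Good K e →
  ∀ (F : Finset G) (Q : Set G) (ε : ℝ), #Q < #G → 0 < ε →
  ∃ p q : G →₀ ℝ, (∀ g, 0 ≤ p g) ∧ (∀ g, 0 ≤ q g) ∧
    (∀ g ∈ F, ∀ g' ∈ F, ∀ x ∈ p.support, ∀ y ∈ q.support, g * x ≠ g' * y) ∧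
    (∀ g ∈ F, ∀ x ∈ p.support, g * x ∉ Q) ∧ (∀ g ∈ F, ∀ x ∈ q.support, g * x ∉ Q) ∧
    (∀ g ∈ F, |ev p (L K g one') - e (L K g one')| < ε) ∧
    (∀ g ∈ F, |ev q (L K g one') - e (L K g one')| < ε) ∧
    (∀ g ∈ F, ‖R K p (L K g (act K e one')) - R K q (L K g (act K e one'))‖ < ε)

end Beur
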