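import Pool.Agent.H723R3.Beur.Stmts
import Pool.Agent.H723R3.Beur.Alg

set_option autoImplicit false
set_option linter.unusedSectionVars false

namespace Beur

open scoped BoundedContinuousFunction Cardinal Topology
open Filter

universe u

theorem taskA3b : TaskA3.{u} := by
  intro G _ _ _ _ K S hS
  obtain ⟨M, -, hM⟩ := zorn_subset_nonempty {T | Adm K T} (by
    intro c hc hchain hne
    refine ⟨⋃₀ c, ⟨?_, ?_, ?_, ?_⟩, fun s hs => Set.subset_sUnion_of_mem hs⟩
    · intro F hF
      obtain ⟨s, hs⟩ := hne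
      exact ⟨s, hs, (hc hs).1 F hF⟩
    · intro Q hQ F hF
      obtain ⟨s, hs⟩ := hne
      exact ⟨s, hs, (hc hs).2.1 Q hQ F hF⟩
    · rintro g F ⟨s, hs, hF⟩
      exact ⟨s, hs, (hc hs).2.2.1 g F hF⟩
    · have hx : ∀ s : c, ∃ x : StrongDual ℝ (G →ᵇ ℝ), x ∈ pol (s : Set (G →ᵇ ℝ)) ∧ x one' = 1 ∧ Pos x := by
        intro s
        obtain ⟨x, hx, hx0⟩ := (hc s.2).2.2.2
        have hP : Pos x := fun F hF => hx F ((hc s.2).1 F hF)
        have h1 := hP.one_pos hx0
        refine ⟨(x one')⁻¹ • x, ?_, ?_, ?_⟩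
        · intro F hF
          exact mul_nonneg (inv_nonneg.2 h1.le) (hx F hF)
        · show (x one')⁻¹ * x one' = 1
          exact inv_mul_cancel₀ h1.ne'
        · intro F hF
          exact mul_nonneg (inv_nonneg.2 h1.le) (hP F hF)
      choose x hx1 hx2 hx3 using hx
      haveI : Nonempty c := ⟨⟨hne.choose, hne.choose_spec⟩⟩
      haveI : IsDirectedOrder c := ⟨by
        rintro ⟨a, ha⟩ ⟨b, hb⟩
        rcases hchain.total ha hb with h | h
        · exact ⟨⟨b, hb⟩, h, le_refl _⟩
        · exact ⟨⟨a, ha⟩, le_refl _, h⟩⟩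
      let U : Ultrafilter c := Ultrafilter.of (atTop : Filter c)
      have hU : (U : Filter c) ≤ atTop := Ultrafilter.of_le _
      obtain ⟨t, ht⟩ := exists_lim U x 1 (fun s => by
        have := (hx3 s).norm_le
        rwa [hx2 s] at this)
      refine ⟨t, ?_, ?_⟩
      · rintro F ⟨s, hs, hF⟩
        refine ge_of_tendsto (ht F) ?_
        have h1 : ∀ᶠ l : c in atTop, (⟨s, hs⟩ : c) ≤ l := eventually_ge_atTop _
        refine (h1.filter_mono hU).mono (fun l hl => ?_)
        exact hx1 l F (hl hF)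
      · intro h0
        have h1 := ht one'
        simp only [hx2] at h1
        have h2 : t one' = 1 := tendsto_nhds_unique h1 tendsto_const_nhds
        rw [h0] at h2
        simp at h2) S hS
  exact ⟨M, hM.prop, fun S' hS' hle => hM.le_of_ge hS' hle⟩

end Beur
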