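import Pool.Agent.H723R3.Beur.Defs

set_option autoImplicit false

/-!
# The general locally compact statement (project BEURLING, MP_cecf91_an)
-/

namespace Beur

open MeasureTheory Topology
open scoped ENNReal

/-- A weight on a topological group: a continuous function `ω : G → (0,∞)` with
`ω(st) ≤ ω(s)ω(t)` and `ω(e) = 1`. -/
structure IsWeight {G : Type*} [Group G] [TopologicalSpace G] (ω : G → ℝ) : Prop where
  cont : Continuous ω
  pos : ∀ s, 0 < ω s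
  mul_le : ∀ s t, ω (s * t) ≤ ω s * ω t
  one : ω 1 = 1

section arens

variable {A : Type*} [NormedAddCommGroup A] [NormedSpace ℂ A]

/-- `f · a`, `(f · a)(b) = f (a b)`, for a bounded bilinear product `m` on `A` -/
noncomputable def dotA (m : A →L[ℂ] A →L[ℂ] A) (f : StrongDual ℂ A) (a : A) : StrongDual ℂ A :=
  f.comp (m a)

@[simp] lemma dotA_apply (m : A →L[ℂ] A →L[ℂ] A) (f : StrongDual ℂ A) (a b : A) :
    dotA m f a b = f (m a b) := rfl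

lemma dotA_norm (m : A →L[ℂ] A →L[ℂ] A) (f : StrongDual ℂ A) (a : A) :
    ‖dotA m f a‖ ≤ ‖f‖ * ‖m‖ * ‖a‖ := by
  calc ‖dotA m f a‖ ≤ ‖f‖ * ‖m a‖ := ContinuousLinearMap.opNorm_comp_le _ _
    _ ≤ ‖f‖ * (‖m‖ * ‖a‖) := mul_le_mul_of_nonneg_left (m.le_opNorm a) (norm_nonneg _)
    _ = _ := by ring

lemma actA1_bd (m : A →L[ℂ] A →L[ℂ] A) (Ψ : StrongDual ℂ (StrongDual ℂ A)) (f : StrongDual ℂ A)
    (a : A) : ‖Ψ (dotA m f a)‖ ≤ (‖Ψ‖ * ‖m‖ * ‖f‖) * ‖a‖ := by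
  calc ‖Ψ (dotA m f a)‖ ≤ ‖Ψ‖ * ‖dotA m f a‖ := Ψ.le_opNorm _
    _ ≤ ‖Ψ‖ * (‖f‖ * ‖m‖ * ‖a‖) :=
      mul_le_mul_of_nonneg_left (dotA_norm m f a) (by positivity)
    _ = _ := by ring

/-- `Ψ · f`, `(Ψ · f)(a) = Ψ (f · a)` -/
noncomputable def actA1 (m : A →L[ℂ] A →L[ℂ] A) (Ψ : StrongDual ℂ (StrongDual ℂ A))
    (f : StrongDual ℂ A) : StrongDual ℂ A :=
  LinearMap.mkContinuous
    { toFun := fun a => Ψ (dotA m f a)
      map_add' := by
        intro a a'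
        have : dotA m f (a + a') = dotA m f a + dotA m f a' := by ext b; simp
        rw [this, map_add]
      map_smul' := by
        intro c a
        have : dotA m f (c • a) = c • dotA m f a := by ext b; simp
        rw [this, map_smul]; rfl }
    (‖Ψ‖ * ‖m‖ * ‖f‖) (actA1_bd m Ψ f)

/-- `f ↦ Ψ · f` as a bounded operator on `A'` -/
noncomputable def actA (m : A →L[ℂ] A →L[ℂ] A) (Ψ : StrongDual ℂ (StrongDual ℂ A)) :
    StrongDual ℂ A →L[ℂ] StrongDual ℂ A :=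
  LinearMap.mkContinuous
    { toFun := fun f => actA1 m Ψ f
      map_add' := by
        intro f f'
        ext a
        have : dotA m (f + f') a = dotA m f a + dotA m f' a := by ext b; simp
        show Ψ (dotA m (f + f') a) = Ψ (dotA m f a) + Ψ (dotA m f' a)
        rw [this, map_add]
      map_smul' := by
        intro c f
        ext a
        have : dotA m (c • f) a = c • dotA m f a := by ext b; simp
        show Ψ (dotA m (c • f) a) = c • Ψ (dotA m f a)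
        rw [this, map_smul] }
    (‖Ψ‖ * ‖m‖) (fun f => ContinuousLinearMap.opNorm_le_bound _ (by positivity) (actA1_bd m Ψ f))

@[simp] lemma actA_apply (m : A →L[ℂ] A →L[ℂ] A) (Ψ : StrongDual ℂ (StrongDual ℂ A))
    (f : StrongDual ℂ A) (a : A) : actA m Ψ f a = Ψ (dotA m f a) := rfl

/-- The first Arens product `(Φ □ Ψ)(f) = Φ (Ψ · f)` on the second dual `A''`. -/
noncomputable def arens (m : A →L[ℂ] A →L[ℂ] A) (Φ Ψ : StrongDual ℂ (StrongDual ℂ A)) :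
    StrongDual ℂ (StrongDual ℂ A) :=
  Φ.comp (actA m Ψ)

@[simp] lemma arens_apply (m : A →L[ℂ] A →L[ℂ] A) (Φ Ψ : StrongDual ℂ (StrongDual ℂ A))
    (f : StrongDual ℂ A) : arens m Φ Ψ f = Φ (actA m Ψ f) := rfl

end arens

variable {G : Type*} [Group G] [TopologicalSpace G] [MeasurableSpace G]

/-- the Banach space `L¹(G, ω) = L¹(G, ω dμ)` -/
abbrev L1w (μ : Measure G) (ω : G → ℝ) : Type _ :=
  Lp ℂ 1 (μ.withDensity (fun s => ENNReal.ofReal (ω s)))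

/-- `m` is the convolution product of `L¹(G, ω)`:
`(f * g)(x) = ∫ f(y) g(y⁻¹x) dμ(y)` for almost all `x`. -/
def IsConv (μ : Measure G) (ω : G → ℝ)
    (m : L1w μ ω →L[ℂ] L1w μ ω →L[ℂ] L1w μ ω) : Prop :=
  ∀ f g : L1w μ ω, (m f g : G → ℂ) =ᵐ[μ] fun x => ∫ y, (f : G → ℂ) y * (g : G → ℂ) (y⁻¹ * x) ∂μ

end Beur

universe u
open MeasureTheory Topology

/-- BEUR-N1: a function oscillating near `1` in a non-discrete group. -/
def Beur.TaskN1 : Prop := ∀ (G : Type u) [Group G] [TopologicalSpace G] [IsTopologicalGroup G]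
  [LocallyCompactSpace G] [T2Space G] [MeasurableSpace G] [BorelSpace G]
  (μ : Measure G) [μ.IsHaarMeasure], ¬ DiscreteTopology G →
  ∃ (s : G → ℝ) (U : Set G), Measurable s ∧ (∀ x, |s x| ≤ 1) ∧ IsCompact U ∧
    (∀ x, x ∉ U → s x = 0) ∧
    ∀ V ∈ 𝓝 (1 : G), ∃ B B' : Set G, MeasurableSet B ∧ MeasurableSet B' ∧ B ⊆ V ∩ U ∧ B' ⊆ V ∩ U ∧
      B⁻¹ = B ∧ B'⁻¹ = B' ∧ 0 < μ B ∧ μ B < ⊤ ∧ 0 < μ B' ∧ μ B' < ⊤ ∧
      (∀ x ∈ B, s x = 1) ∧ (∀ x ∈ B', s x = -1)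

open Beur in
/-- BEUR-N2: approximate identity: `m a (c • 1_B) → a` for small symmetric sets `B`.
The element `b` of `L¹(G,ω)` is any class a.e. equal to `1_B / μ(B)`. -/
def Beur.TaskN2 : Prop := ∀ (G : Type u) [Group G] [TopologicalSpace G] [IsTopologicalGroup G]
  [LocallyCompactSpace G] [T2Space G] [MeasurableSpace G] [BorelSpace G]
  (μ : Measure G) [μ.IsHaarMeasure] [μ.Regular] (ω : G → ℝ) (_ : IsWeight ω)
  (m : L1w μ ω →L[ℂ] L1w μ ω →L[ℂ] L1w μ ω) (_ : IsConv μ ω m) (a : L1w μ ω) (ε : ℝ), 0 < ε →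
  ∃ V ∈ 𝓝 (1 : G), ∀ B : Set G, MeasurableSet B → B ⊆ V → B⁻¹ = B → 0 < μ B → μ B < ⊤ →
    ∀ b : L1w μ ω, ((b : G → ℂ) =ᵐ[μ] B.indicator (fun _ => (((μ B).toReal)⁻¹ : ℂ))) →
      ‖m a b - a‖ ≤ ε

open Beur in
/-- BEUR-N3: non-discrete groups: a nonzero `n` with `Φ □ n = 0` for all `Φ`. -/
def Beur.TaskN3 : Prop := ∀ (G : Type u) [Group G] [TopologicalSpace G] [IsTopologicalGroup G]
  [LocallyCompactSpace G] [T2Space G] [MeasurableSpace G] [BorelSpace G]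
  (μ : Measure G) [μ.IsHaarMeasure] [μ.Regular] (ω : G → ℝ) (_ : IsWeight ω)
  (m : L1w μ ω →L[ℂ] L1w μ ω →L[ℂ] L1w μ ω) (_ : IsConv μ ω m), ¬ DiscreteTopology G →
  ∃ n : StrongDual ℂ (StrongDual ℂ (L1w μ ω)), n ≠ 0 ∧ ∀ Φ, arens m Φ n = 0

open Beur in
/-- BEUR-D: discrete groups: transfer from the real model. -/
def Beur.TaskD : Prop := ∀ (G : Type u) [Group G] [TopologicalSpace G] [DiscreteTopology G]
  [MeasurableSpace G] [BorelSpace G]
  (μ : Measure G) [μ.IsHaarMeasure] (ω : G → ℝ) (_ : IsWeight ω)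
  (m : L1w μ ω →L[ℂ] L1w μ ω →L[ℂ] L1w μ ω) (_ : IsConv μ ω m) (K : Ker G),
  (∀ g h, K.Om g h = ω (g * h) / (ω g * ω h)) → HasNil K →
  ∃ n : StrongDual ℂ (StrongDual ℂ (L1w μ ω)), n ≠ 0 ∧
    (∀ Φ, arens m n (arens m Φ n) = 0) ∧ arens m n n = 0

/-- BEUR-B4: choosing pairwise disjoint finite sets by transfinite recursion. -/
def Beur.TaskB4 : Prop := ∀ (G Λ α : Type u) [Infinite G] (_ : Cardinal.mk Λ ≤ Cardinal.mk G)
  (P : Λ → α → Prop) (R : α → Finset G),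
  (∀ l, ∀ Q : Set G, Cardinal.mk Q < Cardinal.mk G → ∃ a, P l a ∧ Disjoint (R a : Set G) Q) →
  ∃ f : Λ → α, (∀ l, P l (f l)) ∧ ∀ l l', l ≠ l' → Disjoint (R (f l)) (R (f l'))
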