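import Pool.Agent.H723R3.Beur.Alg
import Pool.Agent.H723R3.Beur.LC

set_option autoImplicit false
set_option linter.unusedSectionVars false

namespace Beur

open scoped BoundedContinuousFunction Cardinal Topology
open Filter

universe u

variable {G : Type u} [Group G] [TopologicalSpace G] [DiscreteTopology G]

lemma Good.scal {K : Ker G} {e : StrongDual ℝ (G →ᵇ ℝ)} (he : Good K e)
    (Ψ : StrongDual ℝ (G →ᵇ ℝ)) : ∃ c : ℝ, box K e (box K Ψ e) = c • e := by
  obtain ⟨c, hc⟩ := he.2.2.2.2 Set.univ Ψ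
  refine ⟨c, ?_⟩
  have : restr Set.univ e = e := by
    ext F
    show e (ind Set.univ F) = e F
    congr 1
    ext g; simp
  rwa [this] at hc

/-- the (N) step -/
lemma nil_of_null {K : Ker G} {e : StrongDual ℝ (G →ᵇ ℝ)} (he : Good K e)
    (x : StrongDual ℝ (G →ᵇ ℝ)) (hx0 : x ≠ 0) (hx : box K x e = x) (hx1 : act K x one' = 0) :
    HasNil K := by
  refine ⟨x, hx0, fun Ψ => ?_⟩
  have hE := he.2.1.one_pos he.1
  have h1 : box K e (box K Ψ x) = 0 := by
    obtain ⟨c, hc⟩ := he.scal (box K Ψ x)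
    rw [box_assoc, hx] at hc
    have h2 : c * e one' = 0 := by
      have := congrArg (fun φ : StrongDual ℝ (G →ᵇ ℝ) => φ one') hc
      simp only [box_apply, smul_apply, smul_eq_mul] at this
      rw [← this, ← act_act, hx1, map_zero, map_zero]
    have hc0 : c = 0 := by
      rcases mul_eq_zero.1 h2 with h | h
      · exact h
      · exact absurd h hE.ne'
    rw [hc, hc0, zero_smul]
  calc box K x (box K Ψ x) = box K (box K x e) (box K Ψ x) := by rw [hx]
    _ = box K x (box K e (box K Ψ x)) := box_assoc _ _ _ _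
    _ = 0 := by rw [h1, box_zero]

lemma dense_span {K : Ker G} {e : StrongDual ℝ (G →ᵇ ℝ)} (he : Good K e)
    (hN : ∀ x : StrongDual ℝ (G →ᵇ ℝ), box K x e = x → act K x one' = 0 → x = 0) (f : G →ᵇ ℝ) :
    act K e f ∈ (Submodule.span ℝ (Set.range fun g => L K g (act K e one'))).topologicalClosure := by
  by_contra hcon
  set S := (Submodule.span ℝ (Set.range fun g => L K g (act K e one'))).topologicalClosure with hS
  have hcl : IsClosed (S : Set (G →ᵇ ℝ)) := Submodule.isClosed_topologicalClosure _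
  obtain ⟨Ψ, s, h1, h2⟩ := geometric_hahn_banach_closed_point (S.convex) hcl hcon
  have hzero : ∀ v ∈ S, Ψ v = 0 := by
    intro v hv
    by_contra hne
    have h3 := h1 (((s + 1) / Ψ v) • v) (S.smul_mem _ hv)
    rw [map_smul, smul_eq_mul, div_mul_cancel₀ _ hne] at h3
    linarith
  have hs : 0 < s := by simpa using h1 0 S.zero_mem
  have hu : ∀ g, Ψ (L K g (act K e one')) = 0 := fun g =>
    hzero _ (Submodule.le_topologicalClosure _ (Submodule.subset_span ⟨g, rfl⟩))
  have hx := hN (box K Ψ e) (by rw [box_assoc, he.2.2.2.1]) (by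
    ext g
    rw [act_apply, box_apply, ← L_act, hu]; rfl)
  have : Ψ (act K e f) = 0 := by
    have := congrArg (fun φ : StrongDual ℝ (G →ᵇ ℝ) => φ f) hx
    simpa using this
  linarith

theorem taskB_of (h3 : TaskB3.{u}) (h4 : TaskB4.{u}) : TaskB.{u} := by
  intro G _ _ _ _ K e he
  classical
  by_cases hN : ∀ x : StrongDual ℝ (G →ᵇ ℝ), box K x e = x → act K x one' = 0 → x = 0
  swap
  · push Not at hN
    obtain ⟨x, hx, hx1, hx0⟩ := hN
    exact nil_of_null he x hx0 hx hx1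
  have hPos := he.2.1
  have hE := hPos.one_pos he.1
  set u : G →ᵇ ℝ := act K e one' with hu
  have heu : e u = e one' := by
    have := congrArg (fun φ : StrongDual ℝ (G →ᵇ ℝ) => φ one') he.2.2.2.1
    simpa using this
  -- the recursion
  let α := Finset G × (G →₀ ℝ) × (G →₀ ℝ)
  let Λ := Finset G × ℕ
  let R' : α → Finset G := fun a =>
    (Finset.image₂ (fun g x => g * x) a.1 a.2.1.support) ∪
    (Finset.image₂ (fun g x => g * x) a.1 a.2.2.support)
  let P : Λ → α → Prop := fun l a => a.1 = insert 1 l.1 ∧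
    (∀ g, 0 ≤ a.2.1 g) ∧ (∀ g, 0 ≤ a.2.2 g) ∧
    (∀ g ∈ a.1, ∀ g' ∈ a.1, ∀ x ∈ a.2.1.support, ∀ y ∈ a.2.2.support, g * x ≠ g' * y) ∧
    (∀ g ∈ a.1, |ev a.2.1 (L K g one') - e (L K g one')| < 1 / ((l.2 : ℝ) + 1)) ∧
    (∀ g ∈ a.1, |ev a.2.2 (L K g one') - e (L K g one')| < 1 / ((l.2 : ℝ) + 1)) ∧
    (∀ g ∈ a.1, ‖R K a.2.1 (L K g u) - R K a.2.2 (L K g u)‖ < 1 / ((l.2 : ℝ) + 1))
  have hcard : #Λ ≤ #G := by
    show #(Finset G × ℕ) ≤ #G
    rw [Cardinal.mk_prod, Cardinal.mk_finset_of_infinite]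
    simp only [Cardinal.lift_id, Cardinal.mk_nat, Cardinal.lift_aleph0, Cardinal.lift_uzero]
    exact (Cardinal.mul_aleph0_eq (Cardinal.aleph0_le_mk G)).le
  obtain ⟨φ, hφ, hdis⟩ := h4 G Λ α hcard P R' (by
    intro l Q hQ
    obtain ⟨p, q, hp, hq, hpq, hpQ, hqQ, hpe, hqe, hR⟩ :=
      h3 G K e he (insert 1 l.1) Q (1 / ((l.2 : ℝ) + 1)) hQ (by positivity)
    refine ⟨(insert 1 l.1, p, q), ⟨rfl, hp, hq, hpq, hpe, hqe, hR⟩, ?_⟩
    rw [Set.disjoint_left]
    intro x hx hxQ
    simp only [R', Finset.coe_union, Set.mem_union, Finset.mem_coe, Finset.mem_image₂] at hx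
    rcases hx with ⟨g, hg, y, hy, rfl⟩ | ⟨g, hg, y, hy, rfl⟩
    · exact hpQ g hg y hy hxQ
    · exact hqQ g hg y hy hxQ)
  let U : Ultrafilter Λ := Ultrafilter.of (atTop : Filter Λ)
  have hU : (U : Filter Λ) ≤ atTop := Ultrafilter.of_le _
  -- bounds
  have hone : L K 1 (one' : G →ᵇ ℝ) = one' := L_one K _
  have hbd1 : ∀ l, ev (φ l).2.1 one' ≤ e one' + 1 := by
    intro l
    have h := (hφ l).2.2.2.2.1 1 (by rw [(hφ l).1]; exact Finset.mem_insert_self _ _)
    rw [hone] at h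
    have h' := (abs_lt.1 h).2
    have : 1 / ((l.2 : ℝ) + 1) ≤ 1 := by
      rw [div_le_one (by positivity)]; linarith [Nat.cast_nonneg (α := ℝ) l.2]
    linarith
  have hbd2 : ∀ l, ev (φ l).2.2 one' ≤ e one' + 1 := by
    intro l
    have h := (hφ l).2.2.2.2.2.1 1 (by rw [(hφ l).1]; exact Finset.mem_insert_self _ _)
    rw [hone] at h
    have h' := (abs_lt.1 h).2
    have : 1 / ((l.2 : ℝ) + 1) ≤ 1 := by
      rw [div_le_one (by positivity)]; linarith [Nat.cast_nonneg (α := ℝ) l.2]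
    linarith
  obtain ⟨t, ht⟩ := exists_lim U (fun l => ev (φ l).2.1 - ev (φ l).2.2)
    ((e one' + 1) + (e one' + 1)) (fun l => by
      refine (norm_sub_le (ev (φ l).2.1) (ev (φ l).2.2)).trans (add_le_add ?_ ?_)
      · exact ((ev_pos _ (hφ l).2.1).norm_le).trans (hbd1 l)
      · exact ((ev_pos _ (hφ l).2.2.1).norm_le).trans (hbd2 l))
  -- eventually g ∈ (φ l).1
  have hmem : ∀ g : G, ∀ᶠ l in (U : Filter Λ), g ∈ (φ l).1 := by
    intro g
    have h1 : ∀ᶠ l : Λ in atTop, ({g}, 0) ≤ l := eventually_ge_atTop _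
    refine (h1.filter_mono hU).mono (fun l hl => ?_)
    rw [(hφ l).1]
    exact Finset.mem_insert_of_mem (hl.1 (Finset.mem_singleton_self g))
  have hsmall : Tendsto (fun l : Λ => 1 / ((l.2 : ℝ) + 1)) U (𝓝 0) := by
    have h1 : Tendsto (fun l : Λ => l.2) (atTop : Filter Λ) atTop :=
      tendsto_snd.comp (by rw [← prod_atTop_atTop_eq]; exact tendsto_id)
    exact (tendsto_one_div_add_atTop_nhds_zero_nat.comp h1).mono_left hU
  -- t □ Ψ □ e = 0
  have hkill : ∀ Ψ : StrongDual ℝ (G →ᵇ ℝ), box K t (box K Ψ e) = 0 := by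
    intro Ψ
    have hz : ∀ g, t (act K Ψ (L K g u)) = 0 := by
      intro g
      refine tendsto_nhds_unique (ht _) ?_
      have hle : ∀ᶠ l in (U : Filter Λ),
          ‖(ev (φ l).2.1 - ev (φ l).2.2) (act K Ψ (L K g u))‖ ≤ ‖Ψ‖ * (1 / ((l.2 : ℝ) + 1)) := by
        refine (hmem g).mono (fun l hl => ?_)
        rw [sub_apply, ev_act, ev_act, ← map_sub]
        refine (Ψ.le_opNorm _).trans ?_
        exact mul_le_mul_of_nonneg_left ((hφ l).2.2.2.2.2.2 g hl).le (norm_nonneg _)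
      refine squeeze_zero_norm' hle ?_
      simpa using hsmall.const_mul ‖Ψ‖
    have hz2 : ∀ v ∈ (Submodule.span ℝ (Set.range fun g => L K g u)).topologicalClosure,
        t (act K Ψ v) = 0 := by
      intro v hv
      let T : (G →ᵇ ℝ) →L[ℝ] ℝ := t.comp (act K Ψ)
      have hle : (Submodule.span ℝ (Set.range fun g => L K g u)) ≤ LinearMap.ker (T : (G →ᵇ ℝ) →ₗ[ℝ] ℝ) := by
        rw [Submodule.span_le]
        rintro _ ⟨g, rfl⟩
        exact hz g
      have hcl : IsClosed ((LinearMap.ker (T : (G →ᵇ ℝ) →ₗ[ℝ] ℝ) : Submodule ℝ (G →ᵇ ℝ)) : Set (G →ᵇ ℝ)) :=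
        T.isClosed_ker
      exact (Submodule.topologicalClosure_minimal _ hle hcl) hv
    ext F
    rw [box_apply, ← act_act]
    exact hz2 _ (dense_span he hN F)
  -- the sign function
  let s0 : G → ℝ := fun x =>
    if ∃ l, x ∈ Finset.image₂ (fun g x => g * x) (φ l).1 (φ l).2.1.support then 1
    else if ∃ l, x ∈ Finset.image₂ (fun g x => g * x) (φ l).1 (φ l).2.2.support then -1 else 0
  have hs0 : ∀ x, ‖s0 x‖ ≤ 1 := by
    intro x
    simp only [s0]
    split_ifs <;> simp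
  let s : G →ᵇ ℝ := mkB s0 1 hs0
  have hsp : ∀ l, ∀ g ∈ (φ l).1, ∀ x ∈ (φ l).2.1.support, s0 (g * x) = 1 := by
    intro l g hg x hx
    simp only [s0]
    rw [if_pos ⟨l, Finset.mem_image₂_of_mem hg hx⟩]
  have hsq : ∀ l, ∀ g ∈ (φ l).1, ∀ x ∈ (φ l).2.2.support, s0 (g * x) = -1 := by
    intro l g hg x hx
    have hno : ¬ ∃ l', g * x ∈ Finset.image₂ (fun g x => g * x) (φ l').1 (φ l').2.1.support := by
      rintro ⟨l', hl'⟩
      by_cases hll : l' = l
      · subst hll
        obtain ⟨g', hg', x', hx', heq⟩ := Finset.mem_image₂.1 hl'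
        exact (hφ l').2.2.2.1 g' hg' g hg x' hx' x hx heq
      · have hd := hdis l' l hll
        rw [Finset.disjoint_left] at hd
        exact hd (Finset.mem_union_left _ hl')
          (Finset.mem_union_right _ (Finset.mem_image₂_of_mem hg hx))
    simp only [s0]
    rw [if_neg hno, if_pos ⟨l, Finset.mem_image₂_of_mem hg hx⟩]
  have hts : act K t s = (2:ℝ) • u := by
    ext g
    rw [act_apply]
    refine tendsto_nhds_unique (ht _) ?_
    have heq : ∀ᶠ l in (U : Filter Λ), ev (φ l).2.1 (L K g one') + ev (φ l).2.2 (L K g one') =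
        (ev (φ l).2.1 - ev (φ l).2.2) (L K g s) := by
      refine (hmem g).mono (fun l hl => ?_)
      rw [sub_apply, ev_apply, ev_apply, ev_apply, ev_apply,
        Finsupp.sum, Finsupp.sum, Finsupp.sum, Finsupp.sum, sub_eq_add_neg, ← Finset.sum_neg_distrib]
      congr 1
      · refine Finset.sum_congr rfl (fun x hx => ?_)
        show _ * (K.Om g x * 1) = _ * (K.Om g x * s0 (g * x))
        rw [hsp l g hl x hx]
      · refine Finset.sum_congr rfl (fun x hx => ?_)
        show _ * (K.Om g x * 1) = -(_ * (K.Om g x * s0 (g * x)))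
        rw [hsq l g hl x hx]; ring
    refine Tendsto.congr' heq ?_
    have h1 : Tendsto (fun l => ev (φ l).2.1 (L K g one')) U (𝓝 (u g)) := by
      rw [tendsto_iff_norm_sub_tendsto_zero]
      refine squeeze_zero' (Eventually.of_forall (fun _ => norm_nonneg _)) ?_ hsmall
      refine (hmem g).mono (fun l hl => ?_)
      exact ((hφ l).2.2.2.2.1 g hl).le
    have h2 : Tendsto (fun l => ev (φ l).2.2 (L K g one')) U (𝓝 (u g)) := by
      rw [tendsto_iff_norm_sub_tendsto_zero]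
      refine squeeze_zero' (Eventually.of_forall (fun _ => norm_nonneg _)) ?_ hsmall
      refine (hmem g).mono (fun l hl => ?_)
      exact ((hφ l).2.2.2.2.2.1 g hl).le
    have h3 := h1.add h2
    have h4 : u g + u g = ((2:ℝ) • u) g := by
      simp only [BoundedContinuousFunction.coe_smul, smul_eq_mul]; ring
    rwa [h4] at h3
  refine ⟨box K e t, ?_, fun Ψ => ?_⟩
  · intro h0
    have := congrArg (fun φ : StrongDual ℝ (G →ᵇ ℝ) => φ s) h0
    simp only [box_apply, hts, map_smul, heu, smul_eq_mul] at this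
    have h0' : (0 : StrongDual ℝ (G →ᵇ ℝ)) s = 0 := rfl
    rw [h0'] at this
    linarith
  · rw [box_assoc, ← box_assoc K t, ]
    have : box K t (box K Ψ (box K e t)) = 0 := by
      rw [← box_assoc K Ψ, ← box_assoc, hkill, zero_box]
    rw [box_assoc, this, box_zero]

end Beur
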