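import Mathlib

set_option autoImplicit false

/-!
# Real model of the second dual of `ℓ¹(G, ω)`

`X = ℓ^∞(G)` (bounded functions on the discrete group `G`), kernel
`Om g h = ω(gh)/(ω(g) ω(h))`.  A function `F ∈ X` stands for `f = ω F ∈ ℓ^∞(G, 1/ω)`.
-/

namespace Beur

open scoped BoundedContinuousFunction Cardinal

/-- A normalised weight kernel on a group. -/
structure Ker (G : Type*) [Group G] where
  Om : G → G → ℝ
  pos : ∀ g h, 0 < Om g h
  le_one : ∀ g h, Om g h ≤ 1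
  cocycle : ∀ g h k, Om g h * Om (g * h) k = Om g (h * k) * Om h k
  one_left : ∀ g, Om 1 g = 1
  one_right : ∀ g, Om g 1 = 1

variable {G : Type*} [Group G] [TopologicalSpace G] [DiscreteTopology G]

/-- real-valued bounded functions from a bound -/
noncomputable def mkB (f : G → ℝ) (C : ℝ) (h : ∀ x, ‖f x‖ ≤ C) : G →ᵇ ℝ :=
  BoundedContinuousFunction.ofNormedAddCommGroupDiscrete f C h

@[simp] lemma mkB_apply (f : G → ℝ) (C : ℝ) (h : ∀ x, ‖f x‖ ≤ C) (x : G) : mkB f C h x = f x := rfl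

lemma L_bd (K : Ker G) (g : G) (F : G →ᵇ ℝ) (h : G) : ‖K.Om g h * F (g * h)‖ ≤ ‖F‖ := by
  rw [norm_mul, Real.norm_of_nonneg (K.pos g h).le]
  calc K.Om g h * ‖F (g * h)‖ ≤ 1 * ‖F‖ :=
        mul_le_mul (K.le_one g h) (F.norm_coe_le_norm _) (norm_nonneg _) zero_le_one
    _ = ‖F‖ := one_mul _

/-- `(L g F)(h) = Om g h * F (g h)`: the functional `f ↦ f · (δ_g/ω(g))` in normalised form. -/
noncomputable def L (K : Ker G) (g : G) : (G →ᵇ ℝ) →L[ℝ] (G →ᵇ ℝ) :=
  LinearMap.mkContinuous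
    { toFun := fun F => mkB (fun h => K.Om g h * F (g * h)) ‖F‖ (L_bd K g F)
      map_add' := by intro F F'; ext h; simp; ring
      map_smul' := by intro c F; ext h; simp; ring }
    1 (by
      intro F
      rw [one_mul]
      exact (BoundedContinuousFunction.norm_le (norm_nonneg _)).2 (L_bd K g F))

@[simp] lemma L_apply (K : Ker G) (g : G) (F : G →ᵇ ℝ) (h : G) :
    L K g F h = K.Om g h * F (g * h) := rfl

lemma L_norm (K : Ker G) (g : G) (F : G →ᵇ ℝ) : ‖L K g F‖ ≤ ‖F‖ :=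
  (BoundedContinuousFunction.norm_le (norm_nonneg _)).2 (L_bd K g F)

lemma L_L (K : Ker G) (g k : G) (F : G →ᵇ ℝ) : L K k (L K g F) = K.Om g k • L K (g * k) F := by
  ext h
  simp only [L_apply, BoundedContinuousFunction.coe_smul, smul_eq_mul]
  rw [← mul_assoc, ← mul_assoc, ← mul_assoc, mul_comm (K.Om k h), ← K.cocycle g k h]

lemma L_one (K : Ker G) (F : G →ᵇ ℝ) : L K 1 F = F := by
  ext h; simp [K.one_left]

lemma act_bd (K : Ker G) (Ψ : StrongDual ℝ (G →ᵇ ℝ)) (F : G →ᵇ ℝ) (g : G) :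
    ‖Ψ (L K g F)‖ ≤ ‖Ψ‖ * ‖F‖ :=
  (Ψ.le_opNorm _).trans (mul_le_mul_of_nonneg_left (L_norm K g F) (norm_nonneg _))

/-- `(act Ψ F)(g) = Ψ (L g F)`: the function `Ψ · f` of the first Arens product. -/
noncomputable def act (K : Ker G) (Ψ : StrongDual ℝ (G →ᵇ ℝ)) : (G →ᵇ ℝ) →L[ℝ] (G →ᵇ ℝ) :=
  LinearMap.mkContinuous
    { toFun := fun F => mkB (fun g => Ψ (L K g F)) (‖Ψ‖ * ‖F‖) (act_bd K Ψ F)
      map_add' := by intro F F'; ext h; simp
      map_smul' := by intro c F; ext h; simp }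
    ‖Ψ‖ (by
      intro F
      exact (BoundedContinuousFunction.norm_le (by positivity)).2 (act_bd K Ψ F))

@[simp] lemma act_apply (K : Ker G) (Ψ : StrongDual ℝ (G →ᵇ ℝ)) (F : G →ᵇ ℝ) (g : G) :
    act K Ψ F g = Ψ (L K g F) := rfl

/-- first Arens product in the real normalised model. -/
noncomputable def box (K : Ker G) (Φ Ψ : StrongDual ℝ (G →ᵇ ℝ)) : StrongDual ℝ (G →ᵇ ℝ) :=
  Φ.comp (act K Ψ)

@[simp] lemma box_apply (K : Ker G) (Φ Ψ : StrongDual ℝ (G →ᵇ ℝ)) (F : G →ᵇ ℝ) :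
    box K Φ Ψ F = Φ (act K Ψ F) := rfl

/-- multiplication by the indicator function of `D` -/
noncomputable def ind (D : Set G) : (G →ᵇ ℝ) →L[ℝ] (G →ᵇ ℝ) := by
  classical
  exact LinearMap.mkContinuous
    { toFun := fun F => mkB (fun g => if g ∈ D then F g else 0) ‖F‖ (by
        intro x; split_ifs
        · exact F.norm_coe_le_norm x
        · simp)
      map_add' := by intro F F'; ext h; simp only [mkB_apply, BoundedContinuousFunction.coe_add, Pi.add_apply]; split_ifs <;> simp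
      map_smul' := by intro c F; ext h; simp only [mkB_apply, BoundedContinuousFunction.coe_smul]; split_ifs <;> simp }
    1 (by
      intro F
      rw [one_mul]
      refine (BoundedContinuousFunction.norm_le (norm_nonneg _)).2 ?_
      intro x
      show ‖(if x ∈ D then F x else 0)‖ ≤ _
      split_ifs
      · exact F.norm_coe_le_norm x
      · simp)

open Classical in
@[simp] lemma ind_apply (D : Set G) (F : G →ᵇ ℝ) (g : G) :
    ind D F g = if g ∈ D then F g else 0 := rfl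

/-- `F ↦ e (1_D F)` -/
noncomputable def restr (D : Set G) (e : StrongDual ℝ (G →ᵇ ℝ)) : StrongDual ℝ (G →ᵇ ℝ) :=
  e.comp (ind D)

/-- positive functional -/
def Pos (e : StrongDual ℝ (G →ᵇ ℝ)) : Prop := ∀ F : G →ᵇ ℝ, (∀ g, 0 ≤ F g) → 0 ≤ e F

/-- a functional vanishing on all functions supported on sets of cardinality `< |G|` -/
def Unif (e : StrongDual ℝ (G →ᵇ ℝ)) : Prop :=
  ∀ Q : Set G, #Q < #G → ∀ F : G →ᵇ ℝ, (∀ g, g ∉ Q → F g = 0) → e F = 0

/-- a nonzero element generating a nilpotent ideal -/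
def HasNil (K : Ker G) : Prop :=
  ∃ n : StrongDual ℝ (G →ᵇ ℝ), n ≠ 0 ∧ ∀ Ψ, box K n (box K Ψ n) = 0

/-- a good idempotent -/
def Good (K : Ker G) (e : StrongDual ℝ (G →ᵇ ℝ)) : Prop :=
  e ≠ 0 ∧ Pos e ∧ Unif e ∧ box K e e = e ∧
    ∀ (D : Set G) (Ψ : StrongDual ℝ (G →ᵇ ℝ)), ∃ c : ℝ, box K (restr D e) (box K Ψ e) = c • e

end Beur

universe u

open Beur in
/-- TASK A: minimal cones: either a nilpotent element or a good idempotent. -/
def Beur.TaskA : Prop := ∀ (G : Type u) [Group G] [TopologicalSpace G] [DiscreteTopology G]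
  [Infinite G] (K : Ker G), HasNil K ∨ ∃ e, Good K e

open Beur in
/-- TASK B: a good idempotent gives a nilpotent element. -/
def Beur.TaskB : Prop := ∀ (G : Type u) [Group G] [TopologicalSpace G] [DiscreteTopology G]
  [Infinite G] (K : Ker G) (e), Good K e → HasNil K
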