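import Pool.Agent.H723R3.Beur.Stmts

set_option autoImplicit false
set_option linter.unusedSectionVars false

/-!
Task A7 of project BEURLING (written by helper714): assembly of TASK A from A1, ..., A6.
-/

namespace Beur.TA7

open scoped BoundedContinuousFunction Cardinal

universe u

variable {G : Type u} [Group G] [TopologicalSpace G] [DiscreteTopology G]

lemma act_L (K : Ker G) (z : StrongDual ℝ (G →ᵇ ℝ)) (g : G) (F : G →ᵇ ℝ) :
    act K z (L K g F) = L K g (act K z F) := by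
  ext k
  rw [act_apply, L_L, map_smul, L_apply, act_apply, smul_eq_mul]

lemma act_box (K : Ker G) (y z : StrongDual ℝ (G →ᵇ ℝ)) (F : G →ᵇ ℝ) :
    act K (box K y z) F = act K y (act K z F) := by
  ext g
  rw [act_apply, box_apply, act_L, act_apply]

lemma box_assoc (K : Ker G) (x y z : StrongDual ℝ (G →ᵇ ℝ)) :
    box K (box K x y) z = box K x (box K y z) := by
  ext F
  rw [box_apply, box_apply, box_apply, act_box]

lemma act_add (K : Ker G) (y z : StrongDual ℝ (G →ᵇ ℝ)) (F : G →ᵇ ℝ) :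
    act K (y + z) F = act K y F + act K z F := by
  ext g; simp

lemma act_sub (K : Ker G) (y z : StrongDual ℝ (G →ᵇ ℝ)) (F : G →ᵇ ℝ) :
    act K (y - z) F = act K y F - act K z F := by
  ext g; simp

lemma act_smul (K : Ker G) (c : ℝ) (y : StrongDual ℝ (G →ᵇ ℝ)) (F : G →ᵇ ℝ) :
    act K (c • y) F = c • act K y F := by
  ext g; simp

lemma box_sub_left (K : Ker G) (x y z : StrongDual ℝ (G →ᵇ ℝ)) :
    box K (x - y) z = box K x z - box K y z := by
  ext F; simp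

lemma box_add_left (K : Ker G) (x y z : StrongDual ℝ (G →ᵇ ℝ)) :
    box K (x + y) z = box K x z + box K y z := by
  ext F; simp

lemma box_smul_left (K : Ker G) (c : ℝ) (x z : StrongDual ℝ (G →ᵇ ℝ)) :
    box K (c • x) z = c • box K x z := by
  ext F; simp

lemma box_zero_left (K : Ker G) (z : StrongDual ℝ (G →ᵇ ℝ)) : box K 0 z = 0 := by
  ext F; simp

lemma box_sub_right (K : Ker G) (x y z : StrongDual ℝ (G →ᵇ ℝ)) :
    box K x (y - z) = box K x y - box K x z := by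
  ext F; rw [box_apply, act_sub, map_sub]; rfl

lemma box_smul_right (K : Ker G) (c : ℝ) (x z : StrongDual ℝ (G →ᵇ ℝ)) :
    box K x (c • z) = c • box K x z := by
  ext F; rw [box_apply, act_smul, map_smul]; rfl

lemma box_zero_right (K : Ker G) (x : StrongDual ℝ (G →ᵇ ℝ)) : box K x 0 = 0 := by
  have h := box_smul_right K 0 x 0
  rwa [zero_smul, zero_smul] at h

/-- the basic set: nonnegative functions and functions with small support -/
def S0 (G : Type u) [TopologicalSpace G] : Set (G →ᵇ ℝ) :=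
  {F | (∀ g, 0 ≤ F g) ∨ ∃ Q : Set G, #Q < #G ∧ ∀ g, g ∉ Q → F g = 0}

lemma adm_S0 [Infinite G] (K : Ker G) (h1 : ∃ x : StrongDual ℝ (G →ᵇ ℝ), x ≠ 0 ∧ Pos x ∧ Unif x) :
    Adm K (S0 G) := by
  refine ⟨fun F hF => Or.inl hF, fun Q hQ F hF => Or.inr ⟨Q, hQ, hF⟩, ?_, ?_⟩
  · rintro g F (hF | ⟨Q, hQ, hF⟩)
    · left
      intro h
      rw [L_apply]
      exact mul_nonneg (K.pos _ _).le (hF _)
    · right
      refine ⟨(fun h => g * h) ⁻¹' Q, ?_, ?_⟩
      · exact lt_of_le_of_lt (Cardinal.mk_preimage_of_injective _ _ (mul_right_injective g)) hQ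
      · intro h hh
        rw [L_apply, hF _ hh, mul_zero]
  · obtain ⟨x, hx0, hxp, hxu⟩ := h1
    refine ⟨x, ?_, hx0⟩
    rintro F (hF | ⟨Q, hQ, hF⟩)
    · exact hxp F hF
    · rw [hxu Q hQ F hF]

lemma pol_pos {K : Ker G} {S : Set (G →ᵇ ℝ)} (hS : Adm K S) {x : StrongDual ℝ (G →ᵇ ℝ)}
    (hx : x ∈ pol S) : Pos x := fun F hF => hx F (hS.1 F hF)

lemma pol_unif {K : Ker G} {S : Set (G →ᵇ ℝ)} (hS : Adm K S) {x : StrongDual ℝ (G →ᵇ ℝ)}
    (hx : x ∈ pol S) : Unif x := by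
  intro Q hQ F hF
  have h1 := hx F (hS.2.1 Q hQ F hF)
  have h2 := hx (-F) (hS.2.1 Q hQ (-F) (fun g hg => by
    rw [BoundedContinuousFunction.coe_neg, Pi.neg_apply, hF g hg, neg_zero]))
  rw [map_neg] at h2
  linarith

lemma pol_box {K : Ker G} {S : Set (G →ᵇ ℝ)} (hS : Adm K S) {z x : StrongDual ℝ (G →ᵇ ℝ)}
    (hz : Pos z) (hx : x ∈ pol S) : box K z x ∈ pol S := by
  intro F hF
  rw [box_apply]
  refine hz _ fun g => ?_
  rw [act_apply]
  exact hx _ (hS.2.2.1 g F hF)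

lemma pol_smul {S : Set (G →ᵇ ℝ)} {x : StrongDual ℝ (G →ᵇ ℝ)} {c : ℝ} (hc : 0 ≤ c)
    (hx : x ∈ pol S) : c • x ∈ pol S := by
  intro F hF
  show 0 ≤ c * x F
  exact mul_nonneg hc (hx F hF)

lemma pol_add {S : Set (G →ᵇ ℝ)} {x y : StrongDual ℝ (G →ᵇ ℝ)}
    (hx : x ∈ pol S) (hy : y ∈ pol S) : x + y ∈ pol S := by
  intro F hF
  show 0 ≤ x F + y F
  exact add_nonneg (hx F hF) (hy F hF)

lemma pos_box {K : Ker G} {x y : StrongDual ℝ (G →ᵇ ℝ)} (hx : Pos x) (hy : Pos y) :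
    Pos (box K x y) := by
  intro F hF
  rw [box_apply]
  refine hx _ fun g => ?_
  rw [act_apply]
  refine hy _ fun h => ?_
  rw [L_apply]
  exact mul_nonneg (K.pos _ _).le (hF _)

lemma pos_smul {x : StrongDual ℝ (G →ᵇ ℝ)} {c : ℝ} (hc : 0 ≤ c) (hx : Pos x) : Pos (c • x) := by
  intro F hF
  show 0 ≤ c * x F
  exact mul_nonneg hc (hx F hF)

lemma pos_restr {x : StrongDual ℝ (G →ᵇ ℝ)} (hx : Pos x) (D : Set G) : Pos (restr D x) := by
  classical
  intro F hF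
  show 0 ≤ x (ind D F)
  refine hx _ fun g => ?_
  rw [ind_apply]
  split_ifs
  · exact hF g
  · exact le_rfl

lemma restr_add (x : StrongDual ℝ (G →ᵇ ℝ)) (D : Set G) : restr D x + restr Dᶜ x = x := by
  classical
  ext F
  show x (ind D F) + x (ind Dᶜ F) = x F
  rw [← map_add]
  congr 1
  ext g
  rw [BoundedContinuousFunction.coe_add, Pi.add_apply, ind_apply, ind_apply]
  by_cases hg : g ∈ D
  · simp [hg]
  · simp [hg]

/-- extremality for multiples of `x` -/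
lemma extr {S : Set (G →ᵇ ℝ)} {x : StrongDual ℝ (G →ᵇ ℝ)} (hx : x ∈ pol S)
    (he : ∀ y ∈ pol S, ∀ y' ∈ pol S, y + y' = x → ∃ c : ℝ, y = c • x)
    {c₀ : ℝ} (hc : 0 ≤ c₀) {y y' : StrongDual ℝ (G →ᵇ ℝ)} (hy : y ∈ pol S) (hy' : y' ∈ pol S)
    (h : y + y' = c₀ • x) : ∃ c : ℝ, y = c • x := by
  rcases hc.eq_or_lt with h0 | h0
  · obtain ⟨c, hc1⟩ := he (x + y) (pol_add hx hy) y' hy' (by
      rw [add_assoc, h, ← h0, zero_smul, add_zero])
    refine ⟨c - 1, ?_⟩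
    ext F
    have h2 : x F + y F = c * x F := DFunLike.congr_fun hc1 F
    show y F = (c - 1) * x F
    linarith
  · obtain ⟨c, hc1⟩ := he (c₀⁻¹ • y) (pol_smul (inv_nonneg.2 hc) hy) (c₀⁻¹ • y')
      (pol_smul (inv_nonneg.2 hc) hy') (by
        rw [← smul_add, h, smul_smul, inv_mul_cancel₀ h0.ne', one_smul])
    refine ⟨c₀ * c, ?_⟩
    rw [mul_smul, ← hc1, smul_smul, mul_inv_cancel₀ h0.ne', one_smul]

/-- TASK A7: assembly. -/
theorem taskA7 (hA1 : TaskA1.{u}) (hA2 : TaskA2.{u}) (hA3 : TaskA3.{u}) (hA4 : TaskA4.{u})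
    (hA5 : TaskA5.{u}) (hA6 : TaskA6.{u}) : TaskA.{u} := by
  intro G _ _ _ _ K
  obtain ⟨S, hmax⟩ := hA3 G K (S0 G) (adm_S0 K (hA1 G K))
  have hS : Adm K S := hmax.1
  obtain ⟨x, hx, hx0, hext⟩ := hA5 G K S hS
  have hscal := hA4 G K S hmax
  by_cases hI : ∀ z ∈ pol S, ∀ y ∈ pol S, box K z y = 0
  · left
    refine ⟨x, hx0, fun Ψ => ?_⟩
    obtain ⟨a, b, ha, hb, rfl⟩ := hA6 G Ψ
    rw [box_sub_left, box_sub_right, hI x hx _ (pol_box hS ha hx), hI x hx _ (pol_box hS hb hx)]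
    ext F
    simp
  push Not at hI
  obtain ⟨z, hz, y, hy, hzy⟩ := hI
  obtain ⟨c, hc0, hc⟩ := hscal y hy
  have hcpos : 0 < c := by
    rcases hc0.eq_or_lt with h | h
    · exfalso
      apply hzy
      rw [hc z hz, ← h, zero_smul]
    · exact h
  obtain ⟨e₀, he₀, hunit⟩ : ∃ e₀ ∈ pol S, ∀ w ∈ pol S, box K w e₀ = w := by
    refine ⟨c⁻¹ • y, pol_smul (inv_nonneg.2 hc0) hy, fun w hw => ?_⟩
    rw [box_smul_right, hc w hw, smul_smul, inv_mul_cancel₀ hcpos.ne', one_smul]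
  by_cases hII : ∀ Ψ, box K e₀ (box K Ψ x) = 0
  · left
    refine ⟨x, hx0, fun Ψ => ?_⟩
    have h1 : box K x (box K Ψ x) = box K (box K x e₀) (box K Ψ x) := by rw [hunit x hx]
    rw [h1, box_assoc, hII, box_zero_right]
  right
  push Not at hII
  obtain ⟨Ψ₀, hΨ₀⟩ := hII
  obtain ⟨Φ, hΦ, hΦx⟩ : ∃ Φ, Pos Φ ∧ box K e₀ (box K Φ x) ≠ 0 := by
    obtain ⟨a, b, ha, hb, rfl⟩ := hA6 G Ψ₀
    by_contra hcon
    push Not at hcon
    apply hΨ₀
    rw [box_sub_left, box_sub_right, hcon a ha, hcon b hb]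
    ext F
    simp
  obtain ⟨μ, hμ0, hμ⟩ := hscal (box K Φ x) (pol_box hS hΦ hx)
  have hμpos : 0 < μ := by
    rcases hμ0.eq_or_lt with h | h
    · exfalso
      apply hΦx
      rw [hμ e₀ he₀, ← h, zero_smul]
    · exact h
  have hxpos : Pos x := pol_pos hS hx
  have hex : box K (μ⁻¹ • box K x Φ) x = x := by
    rw [box_smul_left, box_assoc, hμ x hx, smul_smul, inv_mul_cancel₀ hμpos.ne', one_smul]
  have hepos : Pos (μ⁻¹ • box K x Φ) := pos_smul (inv_nonneg.2 hμ0) (pos_box hxpos hΦ)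
  refine ⟨μ⁻¹ • box K x Φ, ?_, hepos, ?_, ?_, ?_⟩
  · intro h
    rw [h, box_zero_left] at hex
    exact hx0 hex.symm
  · intro Q hQ F hF
    have h1 := hA2 G K x Φ hxpos (pol_unif hS hx) hΦ Q hQ F hF
    show μ⁻¹ * (box K x Φ) F = 0
    rw [h1, mul_zero]
  · rw [box_smul_right, ← box_assoc, hex]
  · intro D Ψ
    have hpos : ∀ Φ', Pos Φ' → ∃ c' : ℝ, box K (restr D (μ⁻¹ • box K x Φ))
        (box K Φ' (μ⁻¹ • box K x Φ)) = c' • (μ⁻¹ • box K x Φ) := by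
      intro Φ' hΦ'
      have hzC : box K Φ' x ∈ pol S := pol_box hS hΦ' hx
      obtain ⟨ν, hν0, hν⟩ := hscal (box K Φ (box K Φ' x)) (pol_box hS hΦ hzC)
      have hsum : box K (restr D (μ⁻¹ • box K x Φ)) (box K Φ' x) +
          box K (restr Dᶜ (μ⁻¹ • box K x Φ)) (box K Φ' x) = (μ⁻¹ * ν) • x := by
        rw [← box_add_left, restr_add, box_smul_left, box_assoc, hν x hx, smul_smul]
      obtain ⟨c', hc'⟩ := extr hx hext (mul_nonneg (inv_nonneg.2 hμ0) hν0)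
        (pol_box hS (pos_restr hepos D) hzC) (pol_box hS (pos_restr hepos Dᶜ) hzC) hsum
      refine ⟨c', ?_⟩
      rw [box_smul_right, box_smul_right, ← box_assoc K Φ' x Φ, ← box_assoc, hc', box_smul_left,
        smul_comm]
    obtain ⟨a, b, ha, hb, rfl⟩ := hA6 G Ψ
    obtain ⟨ca, hca⟩ := hpos a ha
    obtain ⟨cb, hcb⟩ := hpos b hb
    refine ⟨ca - cb, ?_⟩
    rw [box_sub_left, box_sub_right, hca, hcb]
    generalize μ⁻¹ • box K x Φ = e
    ext F
    show ca * e F - cb * e F = (ca - cb) * e F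
    ring

end Beur.TA7
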