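import Pool.Agent.H723R3.Beur.Stmts

set_option autoImplicit false

/-!
# Project BEURLING, task B1: Lemma M (helper191)
-/

namespace Beur

open scoped BoundedContinuousFunction Cardinal

universe u

section

variable {G : Type u} [Group G] [TopologicalSpace G] [DiscreteTopology G]

lemma act_L (K : Ker G) (e : StrongDual ℝ (G →ᵇ ℝ)) (g : G) (F : G →ᵇ ℝ) :
    act K e (L K g F) = L K g (act K e F) := by
  ext h
  rw [act_apply, L_L, L_apply, act_apply, map_smul, smul_eq_mul]

lemma act_box (K : Ker G) (Ψ e : StrongDual ℝ (G →ᵇ ℝ)) (F : G →ᵇ ℝ) :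
    act K (box K Ψ e) F = act K Ψ (act K e F) := by
  ext g
  rw [act_apply, box_apply, act_L, act_apply]

omit [Group G] in
lemma restr_nonpos {e : StrongDual ℝ (G →ᵇ ℝ)} (hp : Pos e) (hu : Unif e) (D Q : Set G)
    (hQ : #Q < #G) (F : G →ᵇ ℝ) (hF : ∀ g ∈ D, g ∉ Q → F g ≤ 0) : restr D e F ≤ 0 := by
  classical
  have h1 : restr D e F = e (ind D F - ind Q (ind D F)) + e (ind Q (ind D F)) := by
    rw [← map_add, sub_add_cancel]
    rfl
  have h2 : e (ind Q (ind D F)) = 0 := hu Q hQ _ (fun g hg => by simp [hg])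
  have h3 : 0 ≤ e (-(ind D F - ind Q (ind D F))) := by
    refine hp _ fun g => ?_
    simp only [BoundedContinuousFunction.coe_neg, Pi.neg_apply, BoundedContinuousFunction.coe_sub,
      Pi.sub_apply, ind_apply]
    by_cases hD : g ∈ D <;> by_cases hQ : g ∈ Q
    · simp [hD, hQ]
    · simp [hD, hQ, hF g hD hQ]
    · simp [hD, hQ]
    · simp [hD, hQ]
  rw [map_neg] at h3
  rw [h1, h2]
  linarith

end

theorem taskB1 : TaskB1.{u} := by
  classical
  intro G _ _ _ _ K e he m r w f D Q ε hw hew hQ hε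
  obtain ⟨he0, hpos, hunif, hee, hgood⟩ := he
  let Φ : (G →₀ ℝ) →ₗ[ℝ] ((Fin m → (G →ᵇ ℝ)) × (Fin r → ℝ)) :=
    LinearMap.prod (LinearMap.pi fun i => Finsupp.linearCombination ℝ (fun g => L K g (w i)))
      (LinearMap.pi fun j => Finsupp.linearCombination ℝ (fun g => f j g))
  have hΦ1 : ∀ b i, (Φ b).1 i = b.sum (fun g c => c • L K g (w i)) := fun b i => rfl
  have hΦ2 : ∀ b j, (Φ b).2 j = b.sum (fun g c => c * f j g) := fun b j => rfl
  let P : Set (G →₀ ℝ) := {b | (∀ g, 0 ≤ b g) ∧ ∀ g ∈ b.support, g ∈ D ∧ g ∉ Q}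
  have hPc : Convex ℝ P := by
    intro b hb b' hb' s t hs ht _
    refine ⟨fun g => ?_, fun g hg => ?_⟩
    · have := mul_nonneg hs (hb.1 g)
      have := mul_nonneg ht (hb'.1 g)
      simp only [Finsupp.add_apply, Finsupp.smul_apply, smul_eq_mul]
      linarith
    · by_cases h1 : b g = 0
      · by_cases h2 : b' g = 0
        · simp [h1, h2] at hg
        · exact hb'.2 g (Finsupp.mem_support_iff.2 h2)
      · exact hb.2 g (Finsupp.mem_support_iff.2 h1)
  let C : Set ((Fin m → (G →ᵇ ℝ)) × (Fin r → ℝ)) := Φ '' P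
  have hCc : Convex ℝ (closure C) := (hPc.linear_image Φ).closure
  let p : (Fin m → (G →ᵇ ℝ)) × (Fin r → ℝ) := (0, fun j => restr D e (f j))
  have hp : p ∈ closure C := by
    by_contra hcon
    obtain ⟨φ, u, hφ1, hφ2⟩ := geometric_hahn_banach_closed_point hCc isClosed_closure hcon
    have h0 : (0 : (Fin m → (G →ᵇ ℝ)) × (Fin r → ℝ)) ∈ C :=
      ⟨0, ⟨fun g => le_rfl, by simp⟩, map_zero _⟩
    have hu0 : 0 < u := by simpa using hφ1 0 (subset_closure h0)
    have hneg : ∀ b ∈ P, φ (Φ b) ≤ 0 := by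
      intro b hb
      by_contra hc
      push Not at hc
      have ht : (0 : ℝ) ≤ u / φ (Φ b) := (div_pos hu0 hc).le
      have hmem : (u / φ (Φ b)) • b ∈ P := by
        refine ⟨fun g => ?_, fun g hg => ?_⟩
        · simp only [Finsupp.smul_apply, smul_eq_mul]
          exact mul_nonneg ht (hb.1 g)
        · exact hb.2 g (Finsupp.support_smul hg)
      have h1 := hφ1 _ (subset_closure ⟨_, hmem, rfl⟩)
      rw [map_smul, map_smul, smul_eq_mul, div_mul_cancel₀ _ hc.ne'] at h1
      exact lt_irrefl _ h1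
    -- components of `φ`
    let Ψ : Fin m → StrongDual ℝ (G →ᵇ ℝ) := fun i =>
      φ.comp ((ContinuousLinearMap.inl ℝ (Fin m → (G →ᵇ ℝ)) (Fin r → ℝ)).comp
        (ContinuousLinearMap.single ℝ (fun _ : Fin m => (G →ᵇ ℝ)) i))
    let c : Fin r → ℝ := fun j => φ (0, Pi.single j 1)
    have hdec : ∀ x : (Fin m → (G →ᵇ ℝ)) × (Fin r → ℝ),
        φ x = ∑ i, Ψ i (x.1 i) + ∑ j, c j * x.2 j := by
      intro x
      have h1 : x = (x.1, 0) + (0, x.2) := by ext <;> simp
      have h2 : ((x.1, 0) : (Fin m → (G →ᵇ ℝ)) × (Fin r → ℝ)) =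
          ∑ i, ((Pi.single i (x.1 i), 0) : (Fin m → (G →ᵇ ℝ)) × (Fin r → ℝ)) := by
        refine Prod.ext ?_ ?_
        · rw [Prod.fst_sum]
          exact (Finset.univ_sum_single x.1).symm
        · rw [Prod.snd_sum]
          simp
      have h3 : ((0, x.2) : (Fin m → (G →ᵇ ℝ)) × (Fin r → ℝ)) =
          ∑ j, x.2 j • ((0, Pi.single j 1) : (Fin m → (G →ᵇ ℝ)) × (Fin r → ℝ)) := by
        refine Prod.ext ?_ ?_
        · rw [Prod.fst_sum]
          simp
        · rw [Prod.snd_sum]
          funext j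
          simp [Finset.sum_apply, Pi.single_apply]
      rw [h1, map_add]
      congr 1
      · rw [h2, map_sum]
        simp only [Prod.fst_add, add_zero]
        refine Finset.sum_congr rfl fun i _ => ?_
        rw [← h2]
        rfl
      · rw [h3, map_sum]
        refine Finset.sum_congr rfl fun j _ => ?_
        rw [map_smul, smul_eq_mul, mul_comm, ← h3]
        simp [c]
    let F : G →ᵇ ℝ := ∑ i, act K (Ψ i) (w i) + ∑ j, c j • f j
    have hF : ∀ g ∈ D, g ∉ Q → F g ≤ 0 := by
      intro g hgD hgQ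
      have hmem : Finsupp.single g (1 : ℝ) ∈ P := by
        refine ⟨fun x => ?_, fun x hx => ?_⟩
        · by_cases h : x = g
          · subst h; simp
          · simp [Ne.symm h]
        · have := Finsupp.support_single_subset hx
          rw [Finset.mem_singleton] at this
          subst this
          exact ⟨hgD, hgQ⟩
      have h1 := hneg _ hmem
      rw [hdec] at h1
      have h2 : F g = ∑ i, Ψ i ((Φ (Finsupp.single g 1)).1 i) +
          ∑ j, c j * (Φ (Finsupp.single g 1)).2 j := by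
        simp only [F, BoundedContinuousFunction.coe_add, Pi.add_apply,
          BoundedContinuousFunction.coe_sum, Finset.sum_apply, act_apply,
          BoundedContinuousFunction.coe_smul, smul_eq_mul]
        congr 1
        · refine Finset.sum_congr rfl fun i _ => ?_
          rw [hΦ1, Finsupp.sum_single_index (by simp), one_smul]
        · refine Finset.sum_congr rfl fun j _ => ?_
          rw [hΦ2, Finsupp.sum_single_index (by simp), one_mul]
      rw [h2]
      exact h1
    have h1 := restr_nonpos hpos hunif D Q hQ F hF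
    have h2 : restr D e F = φ p := by
      rw [hdec]
      simp only [F, map_add, map_sum, map_smul, smul_eq_mul]
      congr 1
      refine Finset.sum_congr rfl fun i _ => ?_
      obtain ⟨c', hc'⟩ := hgood D (Ψ i)
      have h3 : restr D e (act K (Ψ i) (w i)) = 0 := by
        conv_lhs => rw [← hew i]
        rw [← act_box]
        have h4 : box K (restr D e) (box K (Ψ i) e) (w i) = c' * e (w i) := by
          rw [hc']; rfl
        rw [box_apply] at h4
        rw [h4, hw i, mul_zero]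
      rw [h3]
      simp [p]
    rw [h2] at h1
    linarith
  obtain ⟨x, ⟨b, hb, rfl⟩, hx⟩ := Metric.mem_closure_iff.1 hp ε hε
  refine ⟨b, hb.1, hb.2, fun i => ?_, fun j => ?_⟩
  · have h1 : ‖(Φ b).1 i‖ ≤ dist p (Φ b) := by
      rw [dist_eq_norm, norm_sub_rev]
      calc ‖(Φ b).1 i‖ = ‖(Φ b - p).1 i‖ := by simp [p]
        _ ≤ ‖(Φ b - p).1‖ := norm_le_pi_norm _ i
        _ ≤ ‖Φ b - p‖ := norm_fst_le _
    rw [← hΦ1]
    exact lt_of_le_of_lt h1 hx
  · have h1 : ‖(Φ b).2 j - restr D e (f j)‖ ≤ dist p (Φ b) := by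
      rw [dist_comm, dist_eq_norm]
      calc ‖(Φ b).2 j - restr D e (f j)‖ = ‖(Φ b - p).2 j‖ := by simp [p]
        _ ≤ ‖(Φ b - p).2‖ := norm_le_pi_norm _ j
        _ ≤ ‖Φ b - p‖ := norm_snd_le _
    rw [← hΦ2, ← Real.norm_eq_abs]
    exact lt_of_le_of_lt h1 hx

end Beur
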