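import Pool.Agent.H723R3.Beur.Stmts

/-! Task B2 of project BEURLING (helper723), by helper471: finite separated partitions. -/

set_option autoImplicit false

universe u

namespace Beur

/-- a maximal set `A` with `s A` disjoint from `A` -/
theorem b2_max {G : Type u} [Group G] (s : G) (hs : s ≠ 1) :
    ∃ A : Set G, (∀ a ∈ A, s * a ∉ A) ∧ ∀ k, k ∈ A ∨ s⁻¹ * k ∈ A ∨ s * k ∈ A := by
  obtain ⟨A, hA⟩ := zorn_subset {A : Set G | ∀ a ∈ A, s * a ∉ A} (by
    intro c hc hch
    refine ⟨⋃₀ c, ?_, fun B hB => Set.subset_sUnion_of_mem hB⟩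
    rintro a ⟨B, hB, ha⟩ ⟨B', hB', ha'⟩
    rcases hch.total hB hB' with h | h
    · exact hc hB' a (h ha) ha'
    · exact hc hB a ha (h ha'))
  have hA1 : ∀ a ∈ A, s * a ∉ A := hA.prop
  refine ⟨A, hA1, fun k => ?_⟩
  by_contra hk
  push Not at hk
  obtain ⟨h1, h2, h3⟩ := hk
  have h4 : insert k A ∈ {A : Set G | ∀ a ∈ A, s * a ∉ A} := by
    intro a ha ha'
    rcases Set.mem_insert_iff.1 ha with rfl | ha
    · rcases Set.mem_insert_iff.1 ha' with h | h
      · exact hs (by simpa using h)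
      · exact h3 h
    · rcases Set.mem_insert_iff.1 ha' with h | h
      · apply h2
        rw [← h]
        simpa using ha
      · exact hA1 a ha h
  exact h1 (hA.le_of_ge h4 (Set.subset_insert k A) (Set.mem_insert k A))

theorem b2_single {G : Type u} [Group G] (s : G) :
    ∃ c : G → Fin 3, s ≠ 1 → ∀ k, c k ≠ c (s * k) := by
  classical
  by_cases hs : s = 1
  · exact ⟨fun _ => 0, fun h => absurd hs h⟩
  obtain ⟨A, h1, h2⟩ := b2_max s hs
  refine ⟨fun k => if k ∈ A then 0 else if s⁻¹ * k ∈ A then 1 else 2, fun _ k => ?_⟩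
  have e : s⁻¹ * (s * k) = k := by group
  simp only [e]
  by_cases ha : k ∈ A
  · simp [ha, h1 k ha]
  · by_cases hb : s⁻¹ * k ∈ A
    · by_cases hc : s * k ∈ A <;> simp [ha, hb, hc]
    · have hc : s * k ∈ A := by
        rcases h2 k with h | h | h
        · exact absurd h ha
        · exact absurd h hb
        · exact h
      simp [ha, hb, hc]

theorem taskB2 : TaskB2.{u} := by
  intro G _ T
  classical
  choose c hc using fun s : G => b2_single s
  let e := Fintype.equivFin ({x // x ∈ T} → Fin 3)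
  refine ⟨Fintype.card ({x // x ∈ T} → Fin 3), fun k => e fun s => c s.1 k, ?_⟩
  intro k k' hk hT h
  have h1 := e.injective h
  have h2 := congrFun h1 ⟨k' * k⁻¹, hT⟩
  simp only at h2
  have hs : k' * k⁻¹ ≠ 1 := by
    intro h3
    exact hk (mul_inv_eq_one.1 h3).symm
  refine hc (k' * k⁻¹) hs k ?_
  rw [h2]
  congr 1
  group

end Beur
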