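import Pool.Agent.H723R3.Beur.Defs

set_option autoImplicit false

/-!
# Task statements for the project BEURLING (MP_cecf91_an)
-/

namespace Beur

open scoped BoundedContinuousFunction Cardinal

universe u

variable {G : Type u} [Group G] [TopologicalSpace G] [DiscreteTopology G]

/-- polar cone of a set of functions -/
def pol (S : Set (G →ᵇ ℝ)) : Set (StrongDual ℝ (G →ᵇ ℝ)) := {x | ∀ F ∈ S, 0 ≤ x F}

/-- admissible set of functions: contains the nonnegative functions and all functions with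
small support, is `L`-invariant and has a nonzero polar element. -/
def Adm (K : Ker G) (S : Set (G →ᵇ ℝ)) : Prop :=
  (∀ F : G →ᵇ ℝ, (∀ g, 0 ≤ F g) → F ∈ S) ∧
  (∀ Q : Set G, #Q < #G → ∀ F : G →ᵇ ℝ, (∀ g, g ∉ Q → F g = 0) → F ∈ S) ∧
  (∀ g, ∀ F ∈ S, L K g F ∈ S) ∧
  ∃ x ∈ pol S, x ≠ 0

/-- the set of functions `S` is maximal admissible (i.e. its polar is a minimal cone) -/
def MaxAdm (K : Ker G) (S : Set (G →ᵇ ℝ)) : Prop :=
  Adm K S ∧ ∀ S', Adm K S' → S ⊆ S' → S' ⊆ S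

/-- TASK A1: there is a nonzero positive uniform functional. -/
def TaskA1 : Prop := ∀ (G : Type u) [Group G] [TopologicalSpace G] [DiscreteTopology G]
  [Infinite G] (_K : Ker G), ∃ x : StrongDual ℝ (G →ᵇ ℝ), x ≠ 0 ∧ Pos x ∧ Unif x

/-- TASK A2: the uniform positive functionals are a right ideal. -/
def TaskA2 : Prop := ∀ (G : Type u) [Group G] [TopologicalSpace G] [DiscreteTopology G]
  [Infinite G] (K : Ker G) (x Ψ : StrongDual ℝ (G →ᵇ ℝ)), Pos x → Unif x → Pos Ψ →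
  Unif (box K x Ψ)

/-- TASK A3: Zorn (given one admissible set there is a maximal one). -/
def TaskA3 : Prop := ∀ (G : Type u) [Group G] [TopologicalSpace G] [DiscreteTopology G]
  [Infinite G] (K : Ker G) (S : Set (G →ᵇ ℝ)), Adm K S → ∃ S', MaxAdm K S'

/-- TASK A4: scalar lemma. -/
def TaskA4 : Prop := ∀ (G : Type u) [Group G] [TopologicalSpace G] [DiscreteTopology G]
  [Infinite G] (K : Ker G) (S : Set (G →ᵇ ℝ)), MaxAdm K S → ∀ x ∈ pol S,
    ∃ c : ℝ, 0 ≤ c ∧ ∀ z ∈ pol S, box K z x = c • z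

/-- TASK A5: extreme ray. -/
def TaskA5 : Prop := ∀ (G : Type u) [Group G] [TopologicalSpace G] [DiscreteTopology G]
  [Infinite G] (K : Ker G) (S : Set (G →ᵇ ℝ)), Adm K S → ∃ x ∈ pol S, x ≠ 0 ∧
    ∀ y ∈ pol S, ∀ y' ∈ pol S, y + y' = x → ∃ c : ℝ, y = c • x

/-- TASK A6: Jordan decomposition. -/
def TaskA6 : Prop := ∀ (G : Type u) [TopologicalSpace G] [DiscreteTopology G]
  (Ψ : StrongDual ℝ (G →ᵇ ℝ)), ∃ a b : StrongDual ℝ (G →ᵇ ℝ), Pos a ∧ Pos b ∧ Ψ = a - b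

/-- TASK B1: Lemma M (Hahn-Banach). -/
def TaskB1 : Prop := ∀ (G : Type u) [Group G] [TopologicalSpace G] [DiscreteTopology G]
  [Infinite G] (K : Ker G) (e : StrongDual ℝ (G →ᵇ ℝ)), Good K e →
  ∀ (m r : ℕ) (w : Fin m → (G →ᵇ ℝ)) (f : Fin r → (G →ᵇ ℝ)) (D Q : Set G) (ε : ℝ),
  (∀ i, e (w i) = 0) → (∀ i, act K e (w i) = w i) → #Q < #G → 0 < ε →
  ∃ b : G →₀ ℝ, (∀ g, 0 ≤ b g) ∧ (∀ g ∈ b.support, g ∈ D ∧ g ∉ Q) ∧
    (∀ i, ‖b.sum (fun g c => c • L K g (w i))‖ < ε) ∧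
    (∀ j, |b.sum (fun g c => c * f j g) - restr D e (f j)| < ε)

/-- TASK B2: finite separated partition. -/
def TaskB2 : Prop := ∀ (G : Type u) [Group G] (T : Finset G),
  ∃ (m : ℕ) (χ : G → Fin m), ∀ k k' : G, k ≠ k' → k' * k⁻¹ ∈ T → χ k ≠ χ k'

end Beur
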