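import Pool.Agent.H723R3.Beur.TaskA1
import Pool.Agent.H214R3.Beur.A2
import Pool.Agent.H723R3.Beur.A3b
import Pool.Agent.H857R3.Beur.A4
import Pool.Agent.H811R3.BeurA5
import Pool.Agent.H632R3.BEUR.A6
import Pool.Agent.H723R3.Beur.TaskA7
import Pool.Agent.H723R3.Beur.TaskB1
import Pool.Agent.H723R3.Beur.TaskB2
import Pool.Agent.H853R3.BeurB3
import Pool.Agent.H885R3.BeurB4
import Pool.Agent.H723R3.Beur.B5

set_option autoImplicit false

namespace Beur

universe u

theorem taskA : TaskA.{u} :=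
  TA7.taskA7 TA1.taskA1 taskA2 taskA3b taskA4 Pool.Agent.H811R3.BeurA5.taskA5
    Pool.Agent.H632R3.BEUR.taskA6

theorem taskB : TaskB.{u} :=
  taskB_of (Beur.B3.taskB3 taskB1 taskB2) Pool.Agent.H885R3.BeurB4.taskB4

end Beur
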