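import Mathlib
import Pool.Agent.H723R3.Beur.Stmts

set_option autoImplicit false

/-!
Task A1 of project BEURLING (written by helper782): there is a nonzero positive uniform functional.
-/

namespace Beur.TA1

open scoped BoundedContinuousFunction Cardinal
open Filter Topology

universe u

variable {G : Type u} [TopologicalSpace G] [DiscreteTopology G]

/-- the filter of sets with complement of cardinality `< |G|` -/
def fil (G : Type u) [Infinite G] : Filter G where
  sets := {S | #(Sᶜ : Set G) < #G}
  univ_sets := by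
    simp only [Set.mem_setOf_eq, Set.compl_univ, Cardinal.mk_emptyCollection]
    exact lt_of_lt_of_le Cardinal.aleph0_pos (Cardinal.aleph0_le_mk G)
  sets_of_superset := by
    intro S T hS hST
    exact lt_of_le_of_lt (Cardinal.mk_le_mk_of_subset (Set.compl_subset_compl.2 hST)) hS
  inter_sets := by
    intro S T hS hT
    simp only [Set.mem_setOf_eq, Set.compl_inter] at *
    exact lt_of_le_of_lt (Cardinal.mk_union_le _ _)
      (Cardinal.add_lt_of_lt (Cardinal.aleph0_le_mk G) hS hT)

lemma mem_fil [Infinite G] {S : Set G} : S ∈ fil G ↔ #(Sᶜ : Set G) < #G := Iff.rfl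

instance [Infinite G] : (fil G).NeBot := by
  refine ⟨fun h => ?_⟩
  have h1 : (∅ : Set G) ∈ fil G := by rw [h]; exact mem_bot
  rw [mem_fil, Set.compl_empty, Cardinal.mk_univ] at h1
  exact lt_irrefl _ h1

lemma ex_lim (U : Ultrafilter G) (f : G →ᵇ ℝ) : ∃ l, Tendsto f U (𝓝 l) := by
  obtain ⟨l, -, hl⟩ := (isCompact_closedBall (0:ℝ) ‖f‖).ultrafilter_le_nhds (U.map f) (by
    rw [le_principal_iff, Ultrafilter.mem_coe, Ultrafilter.mem_map]
    refine Filter.univ_mem' fun g => ?_
    simpa using f.norm_coe_le_norm g)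
  exact ⟨l, hl⟩

/-- limit along an ultrafilter -/
noncomputable def ulim (U : Ultrafilter G) (f : G →ᵇ ℝ) : ℝ := Classical.choose (ex_lim U f)

lemma ulim_spec (U : Ultrafilter G) (f : G →ᵇ ℝ) : Tendsto f U (𝓝 (ulim U f)) :=
  Classical.choose_spec (ex_lim U f)

/-- limit along an ultrafilter as a functional -/
noncomputable def uf (U : Ultrafilter G) : StrongDual ℝ (G →ᵇ ℝ) :=
  LinearMap.mkContinuous
    { toFun := ulim U
      map_add' := fun f g => tendsto_nhds_unique (ulim_spec U (f + g))
        ((ulim_spec U f).add (ulim_spec U g))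
      map_smul' := fun c f => tendsto_nhds_unique (ulim_spec U (c • f))
        ((ulim_spec U f).const_smul c) }
    1 (by
      intro f
      rw [one_mul]
      exact le_of_tendsto (ulim_spec U f).norm (Eventually.of_forall fun g => f.norm_coe_le_norm g))

lemma uf_spec (U : Ultrafilter G) (f : G →ᵇ ℝ) : Tendsto f U (𝓝 (uf U f)) := ulim_spec U f

theorem taskA1 : TaskA1.{u} := by
  intro G _ _ _ _ _K
  set U := Ultrafilter.of (fil G) with hU
  refine ⟨uf U, ?_, ?_, ?_⟩
  · intro h
    have h1 := uf_spec U (1 : G →ᵇ ℝ)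
    have h2 : Tendsto (1 : G →ᵇ ℝ) U (𝓝 (1:ℝ)) := tendsto_const_nhds
    have h3 := tendsto_nhds_unique h1 h2
    rw [h] at h3
    simp at h3
  · intro F hF
    exact ge_of_tendsto (uf_spec U F) (Eventually.of_forall hF)
  · intro Q hQ F hF
    have hmem : Qᶜ ∈ (U : Filter G) := by
      refine Ultrafilter.of_le (fil G) ?_
      rw [mem_fil, compl_compl]
      exact hQ
    have h1 : Tendsto F U (𝓝 0) := by
      refine (tendsto_const_nhds (x := (0:ℝ)) (f := (U : Filter G))).congr' ?_
      filter_upwards [hmem] with g hg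
      exact (hF g hg).symm
    exact tendsto_nhds_unique (uf_spec U F) h1

end Beur.TA1
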