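import Pool.Agent.H723R3.Beur.LC

set_option autoImplicit false
set_option linter.unusedSectionVars false

/-!
# Project BEURLING (MP_cecf91_an), task D: transfer from the real model for discrete groups
-/

namespace Beur.D

open MeasureTheory Topology Filter
open scoped ENNReal BoundedContinuousFunction

universe u
variable {G : Type u} [Group G] [TopologicalSpace G] [DiscreteTopology G]
  [MeasurableSpace G] [BorelSpace G]

lemma meas_all {β : Type*} [MeasurableSpace β] (f : G → β) : Measurable f :=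
  fun s _ => (isOpen_discrete (f ⁻¹' s)).measurableSet

lemma set_meas (s : Set G) : MeasurableSet s := (isOpen_discrete s).measurableSet

lemma mu_sing (μ : Measure G) [μ.IsHaarMeasure] (g : G) : μ {g} = μ {1} := by
  have h := measure_preimage_mul μ g {g}
  rw [← h]
  congr 1
  ext x
  simp

lemma mu_pos (μ : Measure G) [μ.IsHaarMeasure] : 0 < μ {(1 : G)} :=
  (isOpen_discrete _).measure_pos μ (Set.singleton_nonempty _)

lemma mu_lt (μ : Measure G) [μ.IsHaarMeasure] : μ {(1 : G)} < ∞ :=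
  isCompact_singleton.measure_lt_top

lemma mu_count (μ : Measure G) [μ.IsHaarMeasure] : μ = μ {(1 : G)} • Measure.count := by
  refine Measure.ext fun s hs => ?_
  rw [Measure.smul_apply, smul_eq_mul]
  rcases s.finite_or_infinite with hf | hi
  · obtain ⟨t, rfl⟩ := hf.exists_finset_coe
    rw [← sum_measure_singleton, Measure.count_apply_finset]
    rw [Finset.sum_congr rfl fun x _ => mu_sing μ x]
    simp [mul_comm]
  · rw [Measure.count_apply_infinite hi, ENNReal.mul_top (mu_pos μ).ne']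
    by_contra hne
    have h1 := Measure.finite_const_le_meas_of_disjoint_iUnion μ (mu_pos μ)
      (As := fun x : s => ({(x : G)} : Set G)) (fun i => set_meas _)
      (by
        intro x y hxy
        simp only [Function.onFun, Set.disjoint_singleton]
        exact fun h => hxy (Subtype.ext h))
      (by
        have : (⋃ i : s, ({(i : G)} : Set G)) = s := by
          ext y
          simp
        rw [this]
        exact hne)
    have h2 : {i : s | μ {(1 : G)} ≤ μ ({(i : G)} : Set G)} = Set.univ := by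
      ext i
      simp only [Set.mem_ofPred_eq, Set.mem_univ, iff_true]
      exact (mu_sing μ (i : G)).ge
    rw [h2] at h1
    have : Finite s := Set.finite_univ_iff.1 h1
    exact hi (Set.toFinite s)

/-- the real number `μ {1}` -/
noncomputable def cc (μ : Measure G) : ℝ := (μ {(1 : G)}).toReal

lemma cc_pos (μ : Measure G) [μ.IsHaarMeasure] : 0 < cc μ :=
  ENNReal.toReal_pos (mu_pos μ).ne' (mu_lt μ).ne

/-- the weighted measure -/
noncomputable abbrev nu (μ : Measure G) (ω : G → ℝ) : Measure G :=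
  μ.withDensity (fun s => ENNReal.ofReal (ω s))

lemma nu_sing (μ : Measure G) [μ.IsHaarMeasure] (ω : G → ℝ) (g : G) :
    nu μ ω {g} = ENNReal.ofReal (ω g) * μ {1} := by
  rw [withDensity_apply _ (set_meas _), lintegral_singleton, mu_sing]

lemma nu_sing_ne (μ : Measure G) [μ.IsHaarMeasure] (ω : G → ℝ) (g : G) : nu μ ω {g} ≠ ∞ := by
  rw [nu_sing]
  exact ENNReal.mul_ne_top ENNReal.ofReal_ne_top (mu_lt μ).ne

lemma nu_real (μ : Measure G) [μ.IsHaarMeasure] {ω : G → ℝ} (hω : IsWeight ω) (g : G) :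
    (nu μ ω).real {g} = ω g * cc μ := by
  rw [Measure.real, nu_sing, ENNReal.toReal_mul, ENNReal.toReal_ofReal (hω.pos g).le]
  rfl

lemma ae_mu (μ : Measure G) [μ.IsHaarMeasure] {p : G → Prop} (h : ∀ᵐ x ∂μ, p x) (x : G) : p x := by
  by_contra hx
  have h1 : μ {x} ≤ μ {x | ¬ p x} := measure_mono (by
    rintro y rfl
    exact hx)
  rw [ae_iff.1 h, mu_sing] at h1
  exact absurd (mu_pos μ) (not_lt.2 h1)

lemma ae_nu (μ : Measure G) [μ.IsHaarMeasure] {ω : G → ℝ} (hω : IsWeight ω) {p : G → Prop}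
    (h : ∀ᵐ x ∂(nu μ ω), p x) (x : G) : p x := by
  by_contra hx
  have h1 : nu μ ω {x} ≤ nu μ ω {x | ¬ p x} := measure_mono (by
    rintro y rfl
    exact hx)
  rw [ae_iff.1 h, nu_sing] at h1
  have : ENNReal.ofReal (ω x) * μ {1} ≠ 0 :=
    mul_ne_zero (by simpa using hω.pos x) (mu_pos μ).ne'
  exact this (le_antisymm h1 bot_le)

section

variable (μ : Measure G) [μ.IsHaarMeasure] (ω : G → ℝ)

/-- the point mass at `g` -/
noncomputable def dl (g : G) : L1w μ ω :=
  indicatorConstLp 1 (set_meas {g}) (nu_sing_ne μ ω g) (((cc μ)⁻¹ : ℝ) : ℂ)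

variable {ω} (hω : IsWeight ω)
include hω

lemma dl_apply (g x : G) :
    (dl μ ω g : G → ℂ) x = ({g} : Set G).indicator (fun _ => (((cc μ)⁻¹ : ℝ) : ℂ)) x :=
  ae_nu μ hω indicatorConstLp_coeFn x

lemma dl_norm (g : G) : ‖dl μ ω g‖ = ω g := by
  rw [dl, norm_indicatorConstLp (by simp) (by simp), nu_real μ hω]
  have := cc_pos μ
  have h2 := hω.pos g
  rw [Complex.norm_real, Real.norm_of_nonneg (by positivity)]
  simp only [ENNReal.toReal_one, div_one, Real.rpow_one]
  field_simp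

lemma L1_ext {a b : L1w μ ω} (h : ∀ x, (a : G → ℂ) x = (b : G → ℂ) x) : a = b :=
  Lp.ext (Eventually.of_forall h)

lemma add_ap (a b : L1w μ ω) (x : G) :
    ((a + b : L1w μ ω) : G → ℂ) x = (a : G → ℂ) x + (b : G → ℂ) x :=
  ae_nu μ hω (Lp.coeFn_add a b) x

lemma sub_ap (a b : L1w μ ω) (x : G) :
    ((a - b : L1w μ ω) : G → ℂ) x = (a : G → ℂ) x - (b : G → ℂ) x :=
  ae_nu μ hω (Lp.coeFn_sub a b) x

lemma smul_ap (c : ℂ) (a : L1w μ ω) (x : G) :
    ((c • a : L1w μ ω) : G → ℂ) x = c * (a : G → ℂ) x :=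
  ae_nu μ hω (Lp.coeFn_smul c a) x

lemma zero_ap (x : G) : ((0 : L1w μ ω) : G → ℂ) x = 0 :=
  ae_nu μ hω (Lp.coeFn_zero ℂ 1 (nu μ ω)) x

lemma sum_ap {ι : Type*} (s : Finset ι) (f : ι → L1w μ ω) (x : G) :
    ((∑ i ∈ s, f i : L1w μ ω) : G → ℂ) x = ∑ i ∈ s, (f i : G → ℂ) x := by
  classical
  induction s using Finset.induction_on with
  | empty =>
    rw [Finset.sum_empty, Finset.sum_empty]
    exact zero_ap μ hω x
  | insert i s hi ih => rw [Finset.sum_insert hi, Finset.sum_insert hi, add_ap μ hω, ih]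

/-- the point masses multiply like the group elements -/
lemma dl_mul (m : L1w μ ω →L[ℂ] L1w μ ω →L[ℂ] L1w μ ω) (hm : IsConv μ ω m) (g h : G) :
    m (dl μ ω g) (dl μ ω h) = dl μ ω (g * h) := by
  refine L1_ext μ hω fun x => ?_
  rw [ae_mu μ (hm (dl μ ω g) (dl μ ω h)) x]
  have e1 : ∀ y, (dl μ ω g : G → ℂ) y * (dl μ ω h : G → ℂ) (y⁻¹ * x) =
      ({g} : Set G).indicator (fun y => (((cc μ)⁻¹ : ℝ) : ℂ) * (dl μ ω h : G → ℂ) (y⁻¹ * x)) y := by
    intro y
    rw [dl_apply μ hω]
    by_cases hy : y ∈ ({g} : Set G)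
    · rw [Set.indicator_of_mem hy, Set.indicator_of_mem hy]
    · rw [Set.indicator_of_notMem hy, Set.indicator_of_notMem hy, zero_mul]
  simp_rw [e1]
  rw [integral_indicator (set_meas _), integral_singleton, dl_apply μ hω, dl_apply μ hω,
    Measure.real, mu_sing]
  have hc := (cc_pos μ).ne'
  have hc' : (cc μ : ℂ) ≠ 0 := by exact_mod_cast hc
  change (cc μ) • _ = _
  by_cases hx : x = g * h
  · subst hx
    simp only [inv_mul_cancel_left, Set.mem_singleton_iff, Set.indicator_of_mem, Complex.real_smul]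
    push_cast
    field_simp
  · have hx2 : g⁻¹ * x ∉ ({h} : Set G) := by
      simp only [Set.mem_singleton_iff]
      intro h0
      apply hx
      rw [← h0]
      simp
    have hx3 : x ∉ ({g * h} : Set G) := by simpa using hx
    rw [Set.indicator_of_notMem hx2, Set.indicator_of_notMem hx3]
    simp

lemma lint (f : G → ℝ≥0∞) :
    ∫⁻ x, f x ∂(nu μ ω) = ∑' x, μ {1} * (ENNReal.ofReal (ω x) * f x) := by
  rw [lintegral_withDensity_eq_lintegral_mul μ (meas_all _) (meas_all _)]
  conv_lhs => rw [mu_count μ]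
  rw [lintegral_smul_measure, lintegral_count' (meas_all _), smul_eq_mul, ENNReal.tsum_mul_left]
  rfl

/-- a functional vanishing at the point masses vanishes -/
lemma dense (φ : StrongDual ℂ (L1w μ ω)) (hφ : ∀ g, φ (dl μ ω g) = 0) : φ = 0 := by
  classical
  ext a
  set aT : Finset G → L1w μ ω := fun T => ∑ g ∈ T, ((a : G → ℂ) g * cc μ) • dl μ ω g with haT
  have haTx : ∀ (T : Finset G) (x : G), (aT T : G → ℂ) x = if x ∈ T then (a : G → ℂ) x else 0 := by
    intro T x
    rw [haT]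
    simp only
    rw [sum_ap μ hω]
    have hc' : (cc μ : ℂ) ≠ 0 := by exact_mod_cast (cc_pos μ).ne'
    have e1 : ∀ g ∈ T, ((((a : G → ℂ) g * cc μ) • dl μ ω g : L1w μ ω) : G → ℂ) x =
        if x = g then (a : G → ℂ) x else 0 := by
      intro g _
      rw [smul_ap μ hω, dl_apply μ hω]
      by_cases hx : x = g
      · subst hx
        simp only [Set.mem_singleton_iff, Set.indicator_of_mem, if_true]
        push_cast
        field_simp
      · rw [if_neg hx, Set.indicator_of_notMem (by simpa using hx), mul_zero]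
    rw [Finset.sum_congr rfl e1, Finset.sum_ite_eq]
  have hφT : ∀ T, φ (aT T) = 0 := by
    intro T
    rw [haT]
    simp only
    rw [map_sum]
    refine Finset.sum_eq_zero fun g _ => ?_
    rw [map_smul, hφ, smul_zero]
  have hfin : ∑' x, μ {1} * (ENNReal.ofReal (ω x) * ‖(a : G → ℂ) x‖ₑ) ≠ ∞ := by
    rw [← lint μ hω]
    exact (L1.integrable_coeFn a).2.ne
  have hlim : Tendsto (fun T => a - aT T) atTop (𝓝 0) := by
    rw [tendsto_zero_iff_norm_tendsto_zero]
    have h1 := ENNReal.tendsto_tsum_compl_atTop_zero hfin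
    have h2 := (ENNReal.tendsto_toReal ENNReal.zero_ne_top).comp h1
    refine h2.congr fun T => ?_
    simp only [Function.comp]
    rw [L1.norm_def, lint μ hω]
    congr 1
    rw [← tsum_subtype_eq_of_support_subset (s := {x | x ∉ T})]
    · refine tsum_congr fun x => ?_
      rw [sub_ap μ hω, haTx, if_neg x.2, sub_zero]
    · intro x hx
      simp only [Set.mem_ofPred_eq]
      intro hxT
      apply hx
      simp only
      rw [sub_ap μ hω, haTx, if_pos hxT]
      simp
  have h3 : Tendsto (fun T => φ (a - aT T)) atTop (𝓝 (φ 0)) :=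
    (φ.continuous.tendsto 0).comp hlim
  have h4 : (fun T => φ (a - aT T)) = fun _ : Finset G => φ a := by
    funext T
    rw [map_sub, hφT, sub_zero]
  rw [h4, map_zero] at h3
  have := tendsto_nhds_unique h3 tendsto_const_nhds
  simpa using this.symm

lemma res_bd (f : StrongDual ℂ (L1w μ ω)) (g : G) : ‖f (dl μ ω g) / ω g‖ ≤ ‖f‖ := by
  have h1 := f.le_opNorm (dl μ ω g)
  rw [dl_norm μ hω] at h1
  have h2 := hω.pos g
  rw [norm_div, Complex.norm_real, Real.norm_of_nonneg h2.le, div_le_iff₀ h2]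
  exact h1

/-- real part of the normalised restriction of a functional to the group -/
noncomputable def Rp (f : StrongDual ℂ (L1w μ ω)) : G →ᵇ ℝ :=
  mkB (fun g => (f (dl μ ω g) / ω g).re) ‖f‖
    (fun g => (Complex.abs_re_le_norm _).trans (res_bd μ hω f g))

/-- imaginary part of the normalised restriction of a functional to the group -/
noncomputable def Ip (f : StrongDual ℂ (L1w μ ω)) : G →ᵇ ℝ :=
  mkB (fun g => (f (dl μ ω g) / ω g).im) ‖f‖
    (fun g => (Complex.abs_im_le_norm _).trans (res_bd μ hω f g))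

lemma Rp_ap (f : StrongDual ℂ (L1w μ ω)) (g : G) : Rp μ hω f g = (f (dl μ ω g) / ω g).re := rfl

lemma Ip_ap (f : StrongDual ℂ (L1w μ ω)) (g : G) : Ip μ hω f g = (f (dl μ ω g) / ω g).im := rfl

lemma Rp_norm (f : StrongDual ℂ (L1w μ ω)) : ‖Rp μ hω f‖ ≤ ‖f‖ :=
  (BoundedContinuousFunction.norm_le (norm_nonneg _)).2
    (fun g => (Complex.abs_re_le_norm _).trans (res_bd μ hω f g))

lemma Ip_norm (f : StrongDual ℂ (L1w μ ω)) : ‖Ip μ hω f‖ ≤ ‖f‖ :=
  (BoundedContinuousFunction.norm_le (norm_nonneg _)).2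
    (fun g => (Complex.abs_im_le_norm _).trans (res_bd μ hω f g))

lemma Rp_add (f f' : StrongDual ℂ (L1w μ ω)) : Rp μ hω (f + f') = Rp μ hω f + Rp μ hω f' := by
  ext g
  simp only [BoundedContinuousFunction.coe_add, Pi.add_apply, Rp_ap,
    add_apply, add_div, Complex.add_re]

lemma Ip_add (f f' : StrongDual ℂ (L1w μ ω)) : Ip μ hω (f + f') = Ip μ hω f + Ip μ hω f' := by
  ext g
  simp only [BoundedContinuousFunction.coe_add, Pi.add_apply, Ip_ap,
    add_apply, add_div, Complex.add_im]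

lemma Rp_smul (c : ℂ) (f : StrongDual ℂ (L1w μ ω)) :
    Rp μ hω (c • f) = c.re • Rp μ hω f - c.im • Ip μ hω f := by
  ext g
  simp only [BoundedContinuousFunction.coe_sub, Pi.sub_apply, BoundedContinuousFunction.coe_smul,
    Rp_ap, Ip_ap, smul_apply, smul_eq_mul, mul_div_assoc, Complex.mul_re]

lemma Ip_smul (c : ℂ) (f : StrongDual ℂ (L1w μ ω)) :
    Ip μ hω (c • f) = c.re • Ip μ hω f + c.im • Rp μ hω f := by
  ext g
  simp only [BoundedContinuousFunction.coe_add, Pi.add_apply, BoundedContinuousFunction.coe_smul,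
    Rp_ap, Ip_ap, smul_apply, smul_eq_mul, mul_div_assoc, Complex.mul_im]

/-- the complex functional on the dual -/
noncomputable def nC (n : StrongDual ℝ (G →ᵇ ℝ)) : StrongDual ℂ (StrongDual ℂ (L1w μ ω)) :=
  LinearMap.mkContinuous
    { toFun := fun f => (n (Rp μ hω f) : ℂ) + Complex.I * (n (Ip μ hω f) : ℂ)
      map_add' := by
        intro f f'
        rw [Rp_add, Ip_add, map_add, map_add]
        push_cast
        ring
      map_smul' := by
        intro c f
        rw [Rp_smul, Ip_smul, map_sub, map_add, map_smul, map_smul, map_smul, map_smul]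
        simp only [smul_eq_mul, RingHom.id_apply]
        conv_rhs => rw [← Complex.re_add_im c]
        push_cast
        linear_combination (-(c.im * (n (Ip μ hω f)) : ℂ)) * Complex.I_sq }
    (‖n‖ + ‖n‖) (by
      intro f
      have h1 : ‖n (Rp μ hω f)‖ ≤ ‖n‖ * ‖f‖ :=
        (n.le_opNorm _).trans (mul_le_mul_of_nonneg_left (Rp_norm μ hω f) (norm_nonneg _))
      have h2 : ‖n (Ip μ hω f)‖ ≤ ‖n‖ * ‖f‖ :=
        (n.le_opNorm _).trans (mul_le_mul_of_nonneg_left (Ip_norm μ hω f) (norm_nonneg _))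
      show ‖(n (Rp μ hω f) : ℂ) + Complex.I * (n (Ip μ hω f) : ℂ)‖ ≤ _
      refine (norm_add_le _ _).trans ?_
      rw [norm_mul, Complex.norm_I, one_mul, Complex.norm_real, Complex.norm_real, add_mul]
      exact add_le_add h1 h2)

lemma nC_ap (n : StrongDual ℝ (G →ᵇ ℝ)) (f : StrongDual ℂ (L1w μ ω)) :
    nC μ hω n f = (n (Rp μ hω f) : ℂ) + Complex.I * (n (Ip μ hω f) : ℂ) := rfl

lemma lam_int (F : G →ᵇ ℝ) (a : L1w μ ω) :
    Integrable (fun x => (a : G → ℂ) x * ((F x : ℝ) : ℂ)) (nu μ ω) := by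
  refine (L1.integrable_coeFn a).mul_bdd (c := ‖F‖) (meas_all _).aestronglyMeasurable ?_
  refine Eventually.of_forall fun x => ?_
  rw [Complex.norm_real]
  exact F.norm_coe_le_norm x

lemma lam_bd (F : G →ᵇ ℝ) (a : L1w μ ω) :
    ‖∫ x, (a : G → ℂ) x * ((F x : ℝ) : ℂ) ∂(nu μ ω)‖ ≤ ‖F‖ * ‖a‖ := by
  refine (norm_integral_le_integral_norm _).trans ?_
  rw [L1.norm_eq_integral_norm, ← integral_const_mul]
  refine integral_mono (lam_int μ hω F a).norm ((L1.integrable_coeFn a).norm.const_mul _) ?_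
  intro x
  simp only
  rw [norm_mul, Complex.norm_real, mul_comm]
  exact mul_le_mul_of_nonneg_right (F.norm_coe_le_norm x) (norm_nonneg _)

/-- the functional on `L¹(G,ω)` given by a bounded function -/
noncomputable def lam (F : G →ᵇ ℝ) : StrongDual ℂ (L1w μ ω) :=
  LinearMap.mkContinuous
    { toFun := fun a => ∫ x, (a : G → ℂ) x * ((F x : ℝ) : ℂ) ∂(nu μ ω)
      map_add' := by
        intro a b
        rw [← integral_add (lam_int μ hω F a) (lam_int μ hω F b)]
        refine integral_congr_ae (Eventually.of_forall fun x => ?_)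
        simp only
        rw [add_ap μ hω, add_mul]
      map_smul' := by
        intro c a
        simp only [RingHom.id_apply, smul_eq_mul]
        rw [← integral_const_mul]
        refine integral_congr_ae (Eventually.of_forall fun x => ?_)
        simp only
        rw [smul_ap μ hω, mul_assoc] }
    ‖F‖ (lam_bd μ hω F)

lemma lam_ap (F : G →ᵇ ℝ) (a : L1w μ ω) :
    lam μ hω F a = ∫ x, (a : G → ℂ) x * ((F x : ℝ) : ℂ) ∂(nu μ ω) := rfl

lemma lam_norm (F : G →ᵇ ℝ) : ‖lam μ hω F‖ ≤ ‖F‖ :=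
  ContinuousLinearMap.opNorm_le_bound _ (norm_nonneg _) (lam_bd μ hω F)

lemma lam_dl (F : G →ᵇ ℝ) (g : G) : lam μ hω F (dl μ ω g) = ω g * F g := by
  rw [lam_ap]
  have e1 : ∀ x, (dl μ ω g : G → ℂ) x * ((F x : ℝ) : ℂ) =
      ({g} : Set G).indicator (fun x => (((cc μ)⁻¹ : ℝ) : ℂ) * ((F x : ℝ) : ℂ)) x := by
    intro x
    rw [dl_apply μ hω]
    by_cases hy : x ∈ ({g} : Set G)
    · rw [Set.indicator_of_mem hy, Set.indicator_of_mem hy]
    · rw [Set.indicator_of_notMem hy, Set.indicator_of_notMem hy, zero_mul]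
  simp_rw [e1]
  rw [integral_indicator (set_meas _), integral_singleton, nu_real μ hω]
  have hc' : (cc μ : ℂ) ≠ 0 := by exact_mod_cast (cc_pos μ).ne'
  simp only [Complex.real_smul]
  push_cast
  field_simp

lemma lam_add (F F' : G →ᵇ ℝ) : lam μ hω (F + F') = lam μ hω F + lam μ hω F' := by
  ext a
  rw [add_apply, lam_ap, lam_ap, lam_ap,
    ← integral_add (lam_int μ hω F a) (lam_int μ hω F' a)]
  refine integral_congr_ae (Eventually.of_forall fun x => ?_)
  simp only [BoundedContinuousFunction.coe_add, Pi.add_apply]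
  push_cast
  ring

lemma lam_smul (r : ℝ) (F : G →ᵇ ℝ) : lam μ hω (r • F) = (r : ℂ) • lam μ hω F := by
  ext a
  rw [smul_apply, lam_ap, lam_ap, smul_eq_mul, ← integral_const_mul]
  refine integral_congr_ae (Eventually.of_forall fun x => ?_)
  simp only [BoundedContinuousFunction.coe_smul, smul_eq_mul]
  push_cast
  ring

lemma Rp_lam (F : G →ᵇ ℝ) : Rp μ hω (lam μ hω F) = F := by
  ext g
  have h2 : (ω g : ℂ) ≠ 0 := by exact_mod_cast (hω.pos g).ne'
  rw [Rp_ap, lam_dl, mul_div_cancel_left₀ _ h2, Complex.ofReal_re]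

lemma Ip_lam (F : G →ᵇ ℝ) : Ip μ hω (lam μ hω F) = 0 := by
  ext g
  have h2 : (ω g : ℂ) ≠ 0 := by exact_mod_cast (hω.pos g).ne'
  rw [Ip_ap, lam_dl, mul_div_cancel_left₀ _ h2, Complex.ofReal_im]
  rfl

lemma decomp (f : StrongDual ℂ (L1w μ ω)) :
    f = lam μ hω (Rp μ hω f) + Complex.I • lam μ hω (Ip μ hω f) := by
  rw [← sub_eq_zero]
  refine dense μ hω _ fun g => ?_
  rw [sub_apply, add_apply,
    smul_apply, lam_dl, lam_dl, Rp_ap, Ip_ap, smul_eq_mul]
  have h2 : (ω g : ℂ) ≠ 0 := by exact_mod_cast (hω.pos g).ne'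
  have h3 := Complex.re_add_im (f (dl μ ω g) / ω g)
  have h4 : f (dl μ ω g) = ω g * (((f (dl μ ω g) / ω g).re : ℂ) +
      ((f (dl μ ω g) / ω g).im : ℂ) * Complex.I) := by
    rw [h3]
    field_simp
  linear_combination h4

/-- real part of a functional on the dual -/
noncomputable def P1 (Φ : StrongDual ℂ (StrongDual ℂ (L1w μ ω))) : StrongDual ℝ (G →ᵇ ℝ) :=
  LinearMap.mkContinuous
    { toFun := fun F => (Φ (lam μ hω F)).re
      map_add' := by
        intro F F'
        rw [lam_add, map_add, Complex.add_re]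
      map_smul' := by
        intro r F
        rw [lam_smul, map_smul, smul_eq_mul, Complex.re_ofReal_mul]
        rfl }
    ‖Φ‖ (fun F => (Complex.abs_re_le_norm _).trans ((Φ.le_opNorm _).trans
      (mul_le_mul_of_nonneg_left (lam_norm μ hω F) (norm_nonneg _))))

/-- imaginary part of a functional on the dual -/
noncomputable def P2 (Φ : StrongDual ℂ (StrongDual ℂ (L1w μ ω))) : StrongDual ℝ (G →ᵇ ℝ) :=
  LinearMap.mkContinuous
    { toFun := fun F => (Φ (lam μ hω F)).im
      map_add' := by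
        intro F F'
        rw [lam_add, map_add, Complex.add_im]
      map_smul' := by
        intro r F
        rw [lam_smul, map_smul, smul_eq_mul, Complex.im_ofReal_mul]
        rfl }
    ‖Φ‖ (fun F => (Complex.abs_im_le_norm _).trans ((Φ.le_opNorm _).trans
      (mul_le_mul_of_nonneg_left (lam_norm μ hω F) (norm_nonneg _))))

lemma P_ap (Φ : StrongDual ℂ (StrongDual ℂ (L1w μ ω))) (F : G →ᵇ ℝ) :
    Φ (lam μ hω F) = (P1 μ hω Φ F : ℂ) + (P2 μ hω Φ F : ℂ) * Complex.I :=
  (Complex.re_add_im _).symm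

lemma Phi_ap (Φ : StrongDual ℂ (StrongDual ℂ (L1w μ ω))) (f : StrongDual ℂ (L1w μ ω)) :
    Φ f = ((P1 μ hω Φ (Rp μ hω f) - P2 μ hω Φ (Ip μ hω f) : ℝ) : ℂ) +
      ((P2 μ hω Φ (Rp μ hω f) + P1 μ hω Φ (Ip μ hω f) : ℝ) : ℂ) * Complex.I := by
  conv_lhs => rw [decomp μ hω f]
  rw [map_add, map_smul, P_ap, P_ap, smul_eq_mul]
  push_cast
  linear_combination (P2 μ hω Φ (Ip μ hω f) : ℂ) * Complex.I_sq

variable (m : L1w μ ω →L[ℂ] L1w μ ω →L[ℂ] L1w μ ω) (hm : IsConv μ ω m) (K : Ker G)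
  (hK : ∀ g h, K.Om g h = ω (g * h) / (ω g * ω h))
include hm hK

lemma res_dot (f : StrongDual ℂ (L1w μ ω)) (h k : G) :
    dotA m f (dl μ ω h) (dl μ ω k) / ω k =
      ((ω h * K.Om h k : ℝ) : ℂ) * (f (dl μ ω (h * k)) / ω (h * k)) := by
  rw [dotA_apply, dl_mul μ hω m hm, hK]
  have h1 : (ω h : ℂ) ≠ 0 := by exact_mod_cast (hω.pos h).ne'
  have h2 : (ω k : ℂ) ≠ 0 := by exact_mod_cast (hω.pos k).ne'
  have h3 : (ω (h * k) : ℂ) ≠ 0 := by exact_mod_cast (hω.pos (h * k)).ne'
  push_cast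
  field_simp

lemma Rp_dot (f : StrongDual ℂ (L1w μ ω)) (h : G) :
    Rp μ hω (dotA m f (dl μ ω h)) = ω h • L K h (Rp μ hω f) := by
  ext k
  rw [Rp_ap, res_dot μ hω m hm K hK, Complex.re_ofReal_mul]
  simp only [BoundedContinuousFunction.coe_smul, L_apply, smul_eq_mul, Rp_ap]
  ring

lemma Ip_dot (f : StrongDual ℂ (L1w μ ω)) (h : G) :
    Ip μ hω (dotA m f (dl μ ω h)) = ω h • L K h (Ip μ hω f) := by
  ext k
  rw [Ip_ap, res_dot μ hω m hm K hK, Complex.im_ofReal_mul]
  simp only [BoundedContinuousFunction.coe_smul, L_apply, smul_eq_mul, Ip_ap]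
  ring

lemma Rp_act (n : StrongDual ℝ (G →ᵇ ℝ)) (f : StrongDual ℂ (L1w μ ω)) :
    Rp μ hω (actA m (nC μ hω n) f) = act K n (Rp μ hω f) := by
  ext h
  have h1 := (hω.pos h).ne'
  rw [Rp_ap, actA_apply, nC_ap, Rp_dot μ hω m hm K hK, Ip_dot μ hω m hm K hK, map_smul, map_smul,
    act_apply, Complex.div_ofReal_re]
  simp only [smul_eq_mul, Complex.add_re, Complex.ofReal_re, Complex.mul_re, Complex.I_re,
    Complex.I_im, Complex.ofReal_im]
  field_simp
  ring

lemma Ip_act (n : StrongDual ℝ (G →ᵇ ℝ)) (f : StrongDual ℂ (L1w μ ω)) :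
    Ip μ hω (actA m (nC μ hω n) f) = act K n (Ip μ hω f) := by
  ext h
  have h1 := (hω.pos h).ne'
  rw [Ip_ap, actA_apply, nC_ap, Rp_dot μ hω m hm K hK, Ip_dot μ hω m hm K hK, map_smul, map_smul,
    act_apply, Complex.div_ofReal_im]
  simp only [smul_eq_mul, Complex.add_im, Complex.ofReal_re, Complex.mul_im, Complex.I_re,
    Complex.I_im, Complex.ofReal_im]
  field_simp
  ring

lemma Rp_act2 (n : StrongDual ℝ (G →ᵇ ℝ)) (Φ : StrongDual ℂ (StrongDual ℂ (L1w μ ω)))
    (f : StrongDual ℂ (L1w μ ω)) :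
    Rp μ hω (actA m (arens m Φ (nC μ hω n)) f) =
      act K (box K (P1 μ hω Φ) n) (Rp μ hω f) - act K (box K (P2 μ hω Φ) n) (Ip μ hω f) := by
  ext h
  have h1 := (hω.pos h).ne'
  rw [Rp_ap, actA_apply, arens_apply, Phi_ap μ hω, Rp_act μ hω m hm K hK, Ip_act μ hω m hm K hK,
    Rp_dot μ hω m hm K hK, Ip_dot μ hω m hm K hK, Complex.div_ofReal_re]
  simp only [map_smul, smul_eq_mul, Complex.add_re, Complex.ofReal_re, Complex.mul_re,
    Complex.I_re, Complex.I_im, Complex.ofReal_im, BoundedContinuousFunction.coe_sub, Pi.sub_apply,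
    act_apply, box_apply]
  field_simp
  ring

lemma Ip_act2 (n : StrongDual ℝ (G →ᵇ ℝ)) (Φ : StrongDual ℂ (StrongDual ℂ (L1w μ ω)))
    (f : StrongDual ℂ (L1w μ ω)) :
    Ip μ hω (actA m (arens m Φ (nC μ hω n)) f) =
      act K (box K (P2 μ hω Φ) n) (Rp μ hω f) + act K (box K (P1 μ hω Φ) n) (Ip μ hω f) := by
  ext h
  have h1 := (hω.pos h).ne'
  rw [Ip_ap, actA_apply, arens_apply, Phi_ap μ hω, Rp_act μ hω m hm K hK, Ip_act μ hω m hm K hK,
    Rp_dot μ hω m hm K hK, Ip_dot μ hω m hm K hK, Complex.div_ofReal_im]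
  simp only [map_smul, smul_eq_mul, Complex.add_im, Complex.ofReal_re, Complex.mul_im,
    Complex.I_re, Complex.I_im, Complex.ofReal_im, BoundedContinuousFunction.coe_add, Pi.add_apply,
    act_apply, box_apply]
  field_simp
  ring

end

/-- evaluation at `1` in the real model is a left identity -/
lemma box_ev (K : Ker G) (n : StrongDual ℝ (G →ᵇ ℝ)) :
    box K (BoundedContinuousFunction.evalCLM ℝ (1 : G)) n = n := by
  ext F
  rw [box_apply, BoundedContinuousFunction.evalCLM_apply, act_apply, L_one]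

end Beur.D

open Beur Beur.D in
theorem Beur.taskD : Beur.TaskD := by
  intro G _ _ _ _ _ μ _ ω hω m hm K hK hN
  obtain ⟨n, hn0, hn⟩ := hN
  refine ⟨nC μ hω n, ?_, ?_, ?_⟩
  · intro h0
    apply hn0
    ext F
    have h1 : nC μ hω n (lam μ hω F) = 0 := by rw [h0]; rfl
    rw [nC_ap, Rp_lam, Ip_lam, map_zero] at h1
    simpa using h1
  · intro Φ
    ext f
    rw [arens_apply, nC_ap, Rp_act2 μ hω m hm K hK, Ip_act2 μ hω m hm K hK, map_sub, map_add,
      ← box_apply, ← box_apply, ← box_apply, ← box_apply, hn, hn]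
    simp
  · ext f
    have h2 : box K n n = 0 := by
      have := hn (BoundedContinuousFunction.evalCLM ℝ (1 : G))
      rwa [box_ev] at this
    rw [arens_apply, nC_ap, Rp_act μ hω m hm K hK, Ip_act μ hω m hm K hK, ← box_apply,
      ← box_apply, h2]
    simp
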